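import Mathlib

section

/-!
Branch-and-bound checker for coprime harmonious pairs with at most five prime factors.
A state records, for each side, a fraction (the contribution of the known primes, with the
exponents that are still open replaced by infinity), the product of the prime powers whose exponent
is fixed, and the list of open primes `(p, P)`, where `P * p ^ k = p ^ (a + 1)` for some `k`.
-/

namespace Pool.Agent.MP_2876a2_nt

abbrev OL := List (ℕ × ℕ)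

noncomputable def hiN (O : OL) : ℕ :=
  List.rec (motive := fun _ => ℕ) 1 (fun x _ ih => Nat.mul x.2 ih) O

noncomputable def hiD (O : OL) : ℕ :=
  List.rec (motive := fun _ => ℕ) 1 (fun x _ ih => Nat.mul (Nat.sub x.2 1) ih) O

noncomputable def ins (p P : ℕ) (O : OL) : OL :=
  List.rec (motive := fun _ => OL) [(p, P)]
    (fun x t ih => bif Nat.ble P x.2 then (p, P) :: x :: t else x :: ih) O

noncomputable def hd (O : OL) : ℕ :=
  List.rec (motive := fun _ => ℕ) 0 (fun x _ _ => x.2) O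

noncomputable def isNil (O : OL) : Bool :=
  List.rec (motive := fun _ => Bool) true (fun _ _ _ => false) O

/-- the list has exactly one item, with prime `p` -/
noncomputable def isOne (p : ℕ) (O : OL) : Bool :=
  List.rec (motive := fun _ => Bool) false (fun x t _ => Nat.beq x.1 p && isNil t) O

/-- the list has exactly two items, with primes 3 and 5 -/
noncomputable def is35 (O : OL) : Bool :=
  List.rec (motive := fun _ => Bool) false
    (fun x t _ => (Nat.beq x.1 3 && isOne 5 t) || (Nat.beq x.1 5 && isOne 3 t)) O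

def good (m n : ℕ) : Bool :=
  (Nat.beq m 64 && Nat.beq n 173369889) || (Nat.beq m 3472 && Nat.beq n 135)

noncomputable def hX (An : ℕ) (O1 : OL) (Bd : ℕ) (O2 : OL) : ℕ :=
  Nat.mul (Nat.mul An (hiN O1)) (Nat.mul Bd (hiD O2))

noncomputable def hZ (Ad : ℕ) (O1 : OL) (Bd : ℕ) (O2 : OL) : ℕ :=
  Nat.mul (Nat.mul Ad (hiD O1)) (Nat.mul Bd (hiD O2))

noncomputable def hiB (An Ad : ℕ) (O1 : OL) (Bn Bd : ℕ) (O2 : OL) : Bool :=
  Nat.blt (Nat.add (hX An O1 Bd O2) (hX Bn O2 Ad O1)) (hZ Ad O1 Bd O2)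

abbrev Chk := ℕ → ℕ → ℕ → OL → ℕ → ℕ → ℕ → OL → Bool

noncomputable def splF (ih : Chk) : Chk := fun An Ad m0 O1 Bn Bd n0 O2 =>
  List.rec (motive := fun _ => Bool) false
    (fun x t _ =>
      ih (Nat.mul An x.2) (Nat.mul Ad (Nat.sub x.2 1)) (Nat.mul m0 (Nat.div x.2 x.1)) t Bn Bd n0 O2
      && ih An Ad m0 (ins x.1 (Nat.mul x.2 x.1) t) Bn Bd n0 O2) O1

noncomputable def splT (ih : Chk) : Chk := fun An Ad m0 O1 Bn Bd n0 O2 =>
  List.rec (motive := fun _ => Bool) false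
    (fun x t _ =>
      ih An Ad m0 O1 (Nat.mul Bn x.2) (Nat.mul Bd (Nat.sub x.2 1)) (Nat.mul n0 (Nat.div x.2 x.1)) t
      && ih An Ad m0 O1 Bn Bd n0 (ins x.1 (Nat.mul x.2 x.1) t)) O2

noncomputable def spl (ih : Chk) : Chk := fun An Ad m0 O1 Bn Bd n0 O2 =>
  bif isNil O2 || (!(isNil O1) && Nat.ble (hd O1) (hd O2)) then splF ih An Ad m0 O1 Bn Bd n0 O2
  else splT ih An Ad m0 O1 Bn Bd n0 O2

/-- all primes known -/
noncomputable def chk0 (f : ℕ) : Chk :=
  Nat.rec (motive := fun _ => Chk) (fun _ _ _ _ _ _ _ _ => false)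
    (fun _ ih An Ad m0 O1 Bn Bd n0 O2 =>
      bif hiB An Ad O1 Bn Bd O2 then true
      else bif Nat.blt (Nat.mul Ad Bd) (Nat.add (Nat.mul An Bd) (Nat.mul Bn Ad)) then true
      else bif isNil O1 && isNil O2 then good m0 n0
      else bif Nat.beq (Nat.mul Ad Bd) (Nat.add (Nat.mul An Bd) (Nat.mul Bn Ad)) then true
      else spl ih An Ad m0 O1 Bn Bd n0 O2) f

def comp (q : ℕ) : Bool :=
  (Nat.blt 13 q && !(Nat.beq (Nat.gcd q 30030) 1)) || (Nat.blt 2 q && Nat.beq (Nat.mod q 2) 0)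
    || Nat.beq q 9

noncomputable def allFrom (g : ℕ → Bool) (k : ℕ) : ℕ → Bool :=
  Nat.rec (motive := fun _ => ℕ → Bool) (fun _ => true)
    (fun _ ih q => g q && ih (Nat.succ q)) k

def frac (i j An Ad : ℕ) : Bool := Nat.beq (Nat.mul j An) (Nat.mul i Ad)

noncomputable def special : Chk := fun An Ad m0 O1 Bn Bd n0 O2 =>
  (isOne 2 O1 && isNil O2 && frac 7 16 An Ad && frac 9 16 Bn Bd && Nat.beq m0 7 && Nat.beq n0 135)
  || (isOne 2 O1 && isOne 3 O2 && frac 5 12 An Ad && frac 7 12 Bn Bd)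
  || (isNil O1 && isOne 3 O2 && frac 4 9 An Ad && frac 5 9 Bn Bd)
  || (isNil O1 && is35 O2 && frac 7 15 An Ad && frac 8 15 Bn Bd)
  || (isNil O1 && is35 O2 && frac 8 15 An Ad && frac 7 15 Bn Bd)

def mx (a b : ℕ) : ℕ := bif Nat.ble a b then b else a

/-- least candidate for the last prime -/
def qlo (Q X D : ℕ) : ℕ := mx Q (Nat.sub (Nat.div X D) 1)

/-- number of candidates for the last prime -/
def qnum (Q X D x d : ℕ) : ℕ := Nat.sub (Nat.succ (Nat.div x d)) (qlo Q X D)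

noncomputable def last (Q : ℕ) (X Y D x y d : ℕ) : Chk := fun An Ad m0 O1 Bn Bd n0 O2 =>
  allFrom (fun q => comp q ||
      chk0 200 (Nat.mul An (Nat.sub q 1)) (Nat.mul Ad q) m0 (ins q (Nat.mul q q) O1) Bn Bd n0 O2)
    (qnum Q X D x d) (qlo Q X D)
  && allFrom (fun q => comp q ||
      chk0 200 An Ad m0 O1 (Nat.mul Bn (Nat.sub q 1)) (Nat.mul Bd q) n0 (ins q (Nat.mul q q) O2))
    (qnum Q Y D y d) (qlo Q Y D)

noncomputable def step1 (Q : ℕ) (ih : Chk) (X Y D x y d : ℕ) : Chk :=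
  fun An Ad m0 O1 Bn Bd n0 O2 =>
  bif (isNil O1 && isNil O2) || Nat.ble (Nat.add (qnum Q X D x d) (qnum Q Y D y d)) 12 then
    last Q X Y D x y d An Ad m0 O1 Bn Bd n0 O2
  else spl ih An Ad m0 O1 Bn Bd n0 O2

/-- at most one unknown prime, at least `Q` -/
noncomputable def chk1 (Q f : ℕ) : Chk :=
  Nat.rec (motive := fun _ => Chk) (fun _ _ _ _ _ _ _ _ => false)
    (fun _ ih An Ad m0 O1 Bn Bd n0 O2 =>
      bif hiB An Ad O1 Bn Bd O2 then true
      else bif Nat.blt (Nat.mul Ad Bd) (Nat.add (Nat.mul An Bd) (Nat.mul Bn Ad)) then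
        step1 Q ih (hX An O1 Bd O2) (hX Bn O2 Ad O1)
          (Nat.sub (Nat.add (hX An O1 Bd O2) (hX Bn O2 Ad O1)) (hZ Ad O1 Bd O2))
          (Nat.mul An Bd) (Nat.mul Bn Ad)
          (Nat.sub (Nat.add (Nat.mul An Bd) (Nat.mul Bn Ad)) (Nat.mul Ad Bd))
          An Ad m0 O1 Bn Bd n0 O2
      else bif Nat.ble 8 Q && special An Ad m0 O1 Bn Bd n0 O2 then true
      else spl ih An Ad m0 O1 Bn Bd n0 O2) f

abbrev ChkR := ℕ → ℕ → ℕ → ℕ → OL → ℕ → ℕ → OL → Bool

/-- at most `r` unknown primes, all at least `Q`; no exponent is fixed yet -/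
noncomputable def chkR (f : ℕ) : ChkR :=
  Nat.rec (motive := fun _ => ChkR) (fun _ _ _ _ _ _ _ _ => false)
    (fun _ ih Q r An Ad O1 Bn Bd O2 =>
      bif Nat.ble r 1 then chk1 Q 200 An Ad 1 O1 Bn Bd 1 O2
      else bif Nat.blt (Nat.add (Nat.mul Q (Nat.mul Ad Bd)) (Nat.mul r (mx (Nat.mul An Bd) (Nat.mul Bn Ad))))
          (Nat.mul Q (Nat.add (Nat.mul An Bd) (Nat.mul Bn Ad))) then true
      else
        (comp Q ||
          (ih (Nat.succ Q) (Nat.sub r 1) (Nat.mul An (Nat.sub Q 1)) (Nat.mul Ad Q)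
              (ins Q (Nat.mul Q Q) O1) Bn Bd O2
            && (Nat.beq Q 2 || ih (Nat.succ Q) (Nat.sub r 1) An Ad O1 (Nat.mul Bn (Nat.sub Q 1))
              (Nat.mul Bd Q) (ins Q (Nat.mul Q Q) O2))))
        && ih (Nat.succ Q) r An Ad O1 Bn Bd O2) f

set_option maxRecDepth 100000 in
theorem chk_all : chkR 300 2 5 1 1 [] 1 1 [] = true := by decide +kernel

end Pool.Agent.MP_2876a2_nt

end

section

/-! One side of a state of the branch-and-bound search: meaning, bounds, splitting. -/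

namespace Pool.Agent.MP_2876a2_nt

def ell (q c : ℕ) : ℚ := ((q ^ c : ℕ) : ℚ) / ((∑ i ∈ Finset.range (c + 1), q ^ i : ℕ) : ℚ)

def gg (R : ℕ) : ℚ := (R : ℚ) / ((R : ℚ) - 1)

def gp (a : ℕ → ℕ) (O : OL) : ℚ := (O.map fun x => gg (x.1 ^ (a x.1 + 1))).prod

def np (a : ℕ → ℕ) (O : OL) : ℕ := (O.map fun x => x.1 ^ a x.1).prod

def OK (a : ℕ → ℕ) (O : OL) : Prop :=
  ∀ x ∈ O, 2 ≤ x.1 ∧ 2 ≤ x.2 ∧ 1 ≤ a x.1 ∧ ∃ k, x.1 ^ (a x.1 + 1) = x.2 * x.1 ^ k

structure Side (a : ℕ → ℕ) (An Ad m0 : ℕ) (O : OL) (xv : ℚ) (mv : ℕ) : Prop where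
  hn : 0 < An
  hd : 0 < Ad
  ok : OK a O
  hx : xv = (An : ℚ) / Ad * gp a O
  hm : mv = m0 * np a O

theorem geom_mul (q c : ℕ) :
    ((∑ i ∈ Finset.range (c + 1), q ^ i : ℕ) : ℚ) * ((q : ℚ) - 1) = (q : ℚ) ^ (c + 1) - 1 := by
  push_cast
  exact geom_sum_mul (q : ℚ) (c + 1)

theorem geom_pos (q c : ℕ) : 0 < ∑ i ∈ Finset.range (c + 1), q ^ i := by
  rw [Finset.sum_range_succ']
  simp

theorem ell_eq {q : ℕ} (hq : 2 ≤ q) (c : ℕ) :
    ell q c = ((q : ℚ) - 1) / q * gg (q ^ (c + 1)) := by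
  have h1 := geom_mul q c
  have h2 : (0 : ℚ) < ((∑ i ∈ Finset.range (c + 1), q ^ i : ℕ) : ℚ) := by
    exact_mod_cast geom_pos q c
  have hq' : (2 : ℚ) ≤ q := by exact_mod_cast hq
  unfold ell gg
  rw [Nat.cast_pow, Nat.cast_pow, ← h1]
  have h3 : (q : ℚ) - 1 ≠ 0 := by linarith
  have h4 : (q : ℚ) ≠ 0 := by linarith
  field_simp
  ring

theorem one_lt_gg {R : ℕ} (h : 2 ≤ R) : 1 < gg R := by
  have h' : (2 : ℚ) ≤ R := by exact_mod_cast h
  unfold gg
  rw [lt_div_iff₀ (by linarith)]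
  linarith

theorem gg_anti {P R : ℕ} (h : 2 ≤ P) (hPR : P ≤ R) : gg R ≤ gg P := by
  have h' : (2 : ℚ) ≤ P := by exact_mod_cast h
  have h'' : (P : ℚ) ≤ R := by exact_mod_cast hPR
  unfold gg
  rw [div_le_div_iff₀ (by linarith) (by linarith)]
  nlinarith

theorem two_le_pow_succ {q : ℕ} (hq : 2 ≤ q) (c : ℕ) : 2 ≤ q ^ (c + 1) :=
  le_trans hq (Nat.le_self_pow (Nat.succ_ne_zero c) q)

theorem ell_lo {q : ℕ} (hq : 2 ≤ q) (c : ℕ) : ((q : ℚ) - 1) / q < ell q c := by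
  have hq' : (2 : ℚ) ≤ q := by exact_mod_cast hq
  rw [ell_eq hq]
  have h1 := one_lt_gg (two_le_pow_succ hq c)
  have h2 : (0 : ℚ) < ((q : ℚ) - 1) / q := div_pos (by linarith) (by linarith)
  nlinarith

theorem ell_hi {q : ℕ} (hq : 2 ≤ q) {c : ℕ} (hc : 1 ≤ c) : ell q c ≤ (q : ℚ) / (q + 1) := by
  have hq' : (2 : ℚ) ≤ q := by exact_mod_cast hq
  rw [ell_eq hq]
  have h1 : gg (q ^ (c + 1)) ≤ gg (q ^ 2) :=
    gg_anti (two_le_pow_succ hq 1) (Nat.pow_le_pow_right (by omega) (by omega))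
  have h2 : (0 : ℚ) < ((q : ℚ) - 1) / q := div_pos (by linarith) (by linarith)
  have h3 : ((q : ℚ) - 1) / q * gg (q ^ 2) = (q : ℚ) / (q + 1) := by
    unfold gg
    have h4 : (q : ℚ) - 1 ≠ 0 := by linarith
    have h5 : (q : ℚ) ≠ 0 := by linarith
    have h6 : (q : ℚ) + 1 ≠ 0 := by linarith
    have h7 : ((q ^ 2 : ℕ) : ℚ) - 1 = ((q : ℚ) - 1) * (q + 1) := by push_cast; ring
    rw [h7, Nat.cast_pow]
    field_simp
  rw [← h3]
  exact mul_le_mul_of_nonneg_left h1 h2.le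

theorem ell_pos {q : ℕ} (hq : 2 ≤ q) (c : ℕ) : 0 < ell q c := by
  have hq' : (2 : ℚ) ≤ q := by exact_mod_cast hq
  exact lt_trans (div_pos (by linarith) (by linarith)) (ell_lo hq c)

theorem ell_le_one {q : ℕ} (hq : 2 ≤ q) {c : ℕ} (hc : 1 ≤ c) : ell q c ≤ 1 := by
  have hq' : (2 : ℚ) ≤ q := by exact_mod_cast hq
  refine le_trans (ell_hi hq hc) ?_
  rw [div_le_one (by linarith)]
  linarith

theorem gp_nil (a : ℕ → ℕ) : gp a [] = 1 := rfl

theorem np_nil (a : ℕ → ℕ) : np a [] = 1 := rfl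

theorem gp_cons (a : ℕ → ℕ) (x : ℕ × ℕ) (t : OL) :
    gp a (x :: t) = gg (x.1 ^ (a x.1 + 1)) * gp a t := by
  simp [gp]

theorem np_cons (a : ℕ → ℕ) (x : ℕ × ℕ) (t : OL) : np a (x :: t) = x.1 ^ a x.1 * np a t := by
  simp [np]

theorem ins_perm (p P : ℕ) (O : OL) : (ins p P O).Perm ((p, P) :: O) := by
  induction O with
  | nil => exact List.Perm.refl _
  | cons x t ih =>
    show (bif Nat.ble P x.2 then (p, P) :: x :: t else x :: ins p P t).Perm _
    cases Nat.ble P x.2 with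
    | true => exact List.Perm.refl _
    | false => exact (List.Perm.cons x ih).trans (List.Perm.swap _ _ _)

theorem gp_ins (a : ℕ → ℕ) (p P : ℕ) (O : OL) :
    gp a (ins p P O) = gg (p ^ (a p + 1)) * gp a O := by
  rw [← gp_cons a (p, P) O]
  exact ((ins_perm p P O).map _).prod_eq

theorem np_ins (a : ℕ → ℕ) (p P : ℕ) (O : OL) : np a (ins p P O) = p ^ a p * np a O := by
  rw [← np_cons a (p, P) O]
  exact ((ins_perm p P O).map _).prod_eq

theorem OK_ins {a : ℕ → ℕ} {p P : ℕ} {O : OL} (h : OK a ((p, P) :: O)) : OK a (ins p P O) :=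
  fun x hx => h x ((ins_perm p P O).mem_iff.mp hx)

theorem OK_tail {a : ℕ → ℕ} {x : ℕ × ℕ} {t : OL} (h : OK a (x :: t)) : OK a t :=
  fun y hy => h y (List.mem_cons_of_mem _ hy)

theorem gp_bounds {a : ℕ → ℕ} {O : OL} (h : OK a O) :
    1 ≤ gp a O ∧ (isNil O = false → 1 < gp a O) ∧ 0 < hiD O ∧ gp a O ≤ (hiN O : ℚ) / hiD O := by
  induction O with
  | nil =>
    refine ⟨le_refl _, fun h => ?_, Nat.one_pos, ?_⟩
    · exact absurd h (by decide)
    · show (1 : ℚ) ≤ ((1 : ℕ) : ℚ) / ((1 : ℕ) : ℚ)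
      simp
  | cons x t ih =>
    obtain ⟨h1, -, h3, h4⟩ := ih (OK_tail h)
    obtain ⟨hp, hP, -, k, hk⟩ := h x List.mem_cons_self
    have hg := one_lt_gg (two_le_pow_succ hp (a x.1))
    have hle : x.2 ≤ x.1 ^ (a x.1 + 1) := by
      rw [hk]
      exact Nat.le_mul_of_pos_right _ (Nat.pow_pos (by omega))
    have hg2 := gg_anti hP hle
    have hlt : 1 < gp a (x :: t) := by
      rw [gp_cons]
      nlinarith
    have hD : hiD (x :: t) = (x.2 - 1) * hiD t := rfl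
    have hN : hiN (x :: t) = x.2 * hiN t := rfl
    refine ⟨hlt.le, fun _ => hlt, ?_, ?_⟩
    · rw [hD]
      exact Nat.mul_pos (by omega) h3
    · rw [gp_cons, hD, hN, Nat.cast_mul, Nat.cast_mul, Nat.cast_sub (by omega), Nat.cast_one,
        ← div_mul_div_comm]
      exact mul_le_mul hg2 h4 (by linarith) (le_trans (by linarith) hg2)

theorem Side.lo {a : ℕ → ℕ} {An Ad m0 : ℕ} {O : OL} {xv : ℚ} {mv : ℕ}
    (h : Side a An Ad m0 O xv mv) : (An : ℚ) / Ad ≤ xv := by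
  have h0 : (0 : ℚ) < (An : ℚ) / Ad := div_pos (by exact_mod_cast h.hn) (by exact_mod_cast h.hd)
  have h1 := (gp_bounds h.ok).1
  rw [h.hx]
  nlinarith

theorem Side.lo_lt {a : ℕ → ℕ} {An Ad m0 : ℕ} {O : OL} {xv : ℚ} {mv : ℕ}
    (h : Side a An Ad m0 O xv mv) (hO : isNil O = false) : (An : ℚ) / Ad < xv := by
  have h0 : (0 : ℚ) < (An : ℚ) / Ad := div_pos (by exact_mod_cast h.hn) (by exact_mod_cast h.hd)
  have h1 := (gp_bounds h.ok).2.1 hO
  rw [h.hx]
  nlinarith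

theorem Side.pos {a : ℕ → ℕ} {An Ad m0 : ℕ} {O : OL} {xv : ℚ} {mv : ℕ}
    (h : Side a An Ad m0 O xv mv) : 0 < xv :=
  lt_of_lt_of_le (div_pos (by exact_mod_cast h.hn) (by exact_mod_cast h.hd)) h.lo

theorem Side.hi {a : ℕ → ℕ} {An Ad m0 : ℕ} {O : OL} {xv : ℚ} {mv : ℕ}
    (h : Side a An Ad m0 O xv mv) :
    0 < Ad * hiD O ∧ xv ≤ ((An * hiN O : ℕ) : ℚ) / ((Ad * hiD O : ℕ) : ℚ) := by
  have h0 : (0 : ℚ) < (An : ℚ) / Ad := div_pos (by exact_mod_cast h.hn) (by exact_mod_cast h.hd)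
  obtain ⟨-, -, h3, h4⟩ := gp_bounds h.ok
  refine ⟨Nat.mul_pos h.hd h3, ?_⟩
  rw [h.hx, Nat.cast_mul, Nat.cast_mul, ← div_mul_div_comm]
  exact mul_le_mul_of_nonneg_left h4 h0.le

theorem Side.split {a : ℕ → ℕ} {An Ad m0 : ℕ} {x : ℕ × ℕ} {t : OL} {xv : ℚ} {mv : ℕ}
    (h : Side a An Ad m0 (x :: t) xv mv) :
    Side a (An * x.2) (Ad * (x.2 - 1)) (m0 * (x.2 / x.1)) t xv mv ∨
      Side a An Ad m0 (ins x.1 (x.2 * x.1) t) xv mv := by
  obtain ⟨hp, hP, ha, k, hk⟩ := h.ok x List.mem_cons_self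
  rcases k with _ | k
  · left
    rw [pow_zero, mul_one] at hk
    refine ⟨Nat.mul_pos h.hn (by omega), Nat.mul_pos h.hd (by omega), OK_tail h.ok, ?_, ?_⟩
    · rw [h.hx, gp_cons, hk, Nat.cast_mul, Nat.cast_mul, Nat.cast_sub (by omega), Nat.cast_one,
        ← div_mul_div_comm, mul_assoc]
      rfl
    · rw [h.hm, np_cons, ← hk, pow_succ, Nat.mul_div_cancel _ (by omega), mul_assoc]
  · right
    refine ⟨h.hn, h.hd, OK_ins ?_, ?_, ?_⟩
    · intro y hy
      rcases List.mem_cons.mp hy with rfl | hy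
      · refine ⟨hp, by nlinarith, ha, k, ?_⟩
        show x.1 ^ (a x.1 + 1) = x.2 * x.1 * x.1 ^ k
        rw [hk]
        ring
      · exact h.ok y (List.mem_cons_of_mem _ hy)
    · rw [h.hx, gp_cons, gp_ins]
    · rw [h.hm, np_cons, np_ins]

theorem Side.add {a : ℕ → ℕ} {An Ad m0 : ℕ} {O : OL} {xv : ℚ} {mv : ℕ}
    (h : Side a An Ad m0 O xv mv) {q : ℕ} (hq : 2 ≤ q) (ha : 1 ≤ a q) :
    Side a (An * (q - 1)) (Ad * q) m0 (ins q (q * q) O) (xv * ell q (a q)) (mv * q ^ a q) := by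
  refine ⟨Nat.mul_pos h.hn (by omega), Nat.mul_pos h.hd (by omega), OK_ins ?_, ?_, ?_⟩
  · intro y hy
    rcases List.mem_cons.mp hy with rfl | hy
    · refine ⟨hq, by nlinarith, ha, a q - 1, ?_⟩
      show q ^ (a q + 1) = q * q * q ^ (a q - 1)
      obtain ⟨c, hc⟩ : ∃ c, a q = c + 1 := ⟨a q - 1, by omega⟩
      rw [hc, Nat.add_sub_cancel]
      ring
    · exact h.ok y hy
  · rw [h.hx, gp_ins, ell_eq hq, Nat.cast_mul, Nat.cast_mul, Nat.cast_sub (by omega), Nat.cast_one,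
      ← div_mul_div_comm]
    ring
  · rw [h.hm, np_ins]
    ring

end Pool.Agent.MP_2876a2_nt

end

section

/-! The five limit families, solved for all exponents. -/

namespace Pool.Agent.MP_2876a2_nt

theorem gg_succ (r : ℕ) : gg (r + 1) = ((r : ℚ) + 1) / r := by
  unfold gg
  push_cast
  ring_nf

theorem pow_pred {p : ℕ} (hp : 2 ≤ p) (a : ℕ) : ∃ r, 0 < r ∧ p ^ (a + 1) = r + 1 := by
  have := two_le_pow_succ hp a
  exact ⟨p ^ (a + 1) - 1, by omega, by omega⟩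

theorem dvd_succ_of {p a r : ℕ} (h : p ^ (a + 1) = r + 1) : p ∣ r + 1 := by
  rw [← h]
  exact dvd_pow_self p (Nat.succ_ne_zero a)

theorem odd_of_pow {p a r : ℕ} (hp : p % 2 = 1) (h : p ^ (a + 1) = r + 1) : 2 ∣ r := by
  have : Odd (p ^ (a + 1)) := (Nat.odd_iff.mpr hp).pow
  rw [h, Nat.odd_iff] at this
  omega

theorem not_dvd_of_succ {p r : ℕ} (hp : 2 ≤ p) (h : p ∣ r + 1) : ¬ p ∣ r := fun h' => by
  have := (Nat.dvd_add_right h').mp h
  have := Nat.le_of_dvd Nat.one_pos this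
  omega

/-- family 1, last prime on the side of 135 -/
theorem f1b {a Q G : ℕ} (hG : 0 < G) (h2 : ¬ 2 ∣ Q)
    (h : (7 : ℚ) / 16 * gg (2 ^ (a + 1)) + 9 / 16 * ((Q : ℚ) / G) = 1) : False := by
  obtain ⟨r, hr, hR⟩ := pow_pred (le_refl 2) a
  rw [hR, gg_succ] at h
  have hr' : (r : ℚ) ≠ 0 := by exact_mod_cast hr.ne'
  have hG' : (G : ℚ) ≠ 0 := by exact_mod_cast hG.ne'
  have h1 : 7 * ((r + 1) * G) + 9 * (Q * r) = 16 * (G * r) := by
    have : (7 : ℚ) * ((r + 1) * G) + 9 * (Q * r) = 16 * (G * r) := by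
      field_simp at h
      linarith
    exact_mod_cast this
  have h3 := dvd_succ_of hR
  have h4 : 2 ∣ (r + 1) * G := h3.mul_right G
  have h5 : 2 ∣ Q * r := by omega
  rcases (Nat.Prime.dvd_mul Nat.prime_two).mp h5 with h6 | h6
  · exact h2 h6
  · exact not_dvd_of_succ (le_refl 2) h3 h6

/-- family 1, last prime on the side of 2 -/
theorem f1a {a Q G : ℕ} (hG : 0 < G) (hc : Nat.Coprime Q G)
    (h : (7 : ℚ) / 16 * gg (2 ^ (a + 1)) * ((Q : ℚ) / G) + 9 / 16 = 1) :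
    Q + 1 = 2 ^ (a + 1) ∧ G = Q + 1 := by
  obtain ⟨r, hr, hR⟩ := pow_pred (le_refl 2) a
  rw [hR, gg_succ] at h
  have hr' : (r : ℚ) ≠ 0 := by exact_mod_cast hr.ne'
  have hG' : (G : ℚ) ≠ 0 := by exact_mod_cast hG.ne'
  have h1 : (r + 1) * Q = r * G := by
    have : ((r : ℚ) + 1) * Q = r * G := by
      field_simp at h
      linarith
    exact_mod_cast this
  have h2 : Q ∣ r := hc.dvd_of_dvd_mul_right ⟨r + 1, by rw [← h1]; ring⟩
  have hc2 : Nat.Coprime r (r + 1) := by simp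
  have h3 : r ∣ Q := hc2.dvd_of_dvd_mul_left ⟨G, h1⟩
  have h4 : Q = r := Nat.dvd_antisymm h2 h3
  rw [hR, h4]
  refine ⟨rfl, ?_⟩
  rw [h4, mul_comm] at h1
  exact (Nat.eq_of_mul_eq_mul_left hr h1).symm

theorem f2a {a b Q G : ℕ} (hG : 0 < G) (h3 : ¬ 3 ∣ Q)
    (h : (5 : ℚ) / 12 * gg (2 ^ (a + 1)) * ((Q : ℚ) / G) + 7 / 12 * gg (3 ^ (b + 1)) = 1) :
    False := by
  obtain ⟨r, hr, hR⟩ := pow_pred (le_refl 2) a
  obtain ⟨s, hs, hS⟩ := pow_pred (by norm_num : 2 ≤ 3) b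
  rw [hR, hS, gg_succ, gg_succ] at h
  have hr' : (r : ℚ) ≠ 0 := by exact_mod_cast hr.ne'
  have hs' : (s : ℚ) ≠ 0 := by exact_mod_cast hs.ne'
  have hG' : (G : ℚ) ≠ 0 := by exact_mod_cast hG.ne'
  have h1 : 5 * ((r + 1) * Q * s) + 7 * ((s + 1) * (G * r)) = 12 * (r * s * G) := by
    have : (5 : ℚ) * ((r + 1) * Q * s) + 7 * ((s + 1) * (G * r)) = 12 * (r * s * G) := by
      field_simp at h
      linarith
    exact_mod_cast this
  have h4 := dvd_succ_of hS
  have h5 : 3 ∣ (s + 1) * (G * r) := h4.mul_right _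
  have h6 : 3 ∣ (r + 1) * Q * s := by omega
  rcases (Nat.Prime.dvd_mul Nat.prime_three).mp h6 with h7 | h7
  · rcases (Nat.Prime.dvd_mul Nat.prime_three).mp h7 with h8 | h8
    · rw [← hR] at h8
      exact absurd (Nat.prime_three.dvd_of_dvd_pow h8) (by norm_num)
    · exact h3 h8
  · exact not_dvd_of_succ (by norm_num) h4 h7

theorem f2b {a b Q G : ℕ} (hG : 0 < G) (h2 : ¬ 2 ∣ Q)
    (h : (5 : ℚ) / 12 * gg (2 ^ (a + 1)) + 7 / 12 * gg (3 ^ (b + 1)) * ((Q : ℚ) / G) = 1) :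
    False := by
  obtain ⟨r, hr, hR⟩ := pow_pred (le_refl 2) a
  obtain ⟨s, hs, hS⟩ := pow_pred (by norm_num : 2 ≤ 3) b
  rw [hR, hS, gg_succ, gg_succ] at h
  have hr' : (r : ℚ) ≠ 0 := by exact_mod_cast hr.ne'
  have hs' : (s : ℚ) ≠ 0 := by exact_mod_cast hs.ne'
  have hG' : (G : ℚ) ≠ 0 := by exact_mod_cast hG.ne'
  have h1 : 5 * ((r + 1) * (s * G)) + 7 * ((s + 1) * Q * r) = 12 * (r * s * G) := by
    have : (5 : ℚ) * ((r + 1) * (s * G)) + 7 * ((s + 1) * Q * r) = 12 * (r * s * G) := by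
      field_simp at h
      linarith
    exact_mod_cast this
  have h4 := dvd_succ_of hR
  have h5 : 2 ∣ (r + 1) * (s * G) := h4.mul_right _
  have h6 : 2 ∣ (s + 1) * Q * r := by omega
  have h9 := odd_of_pow (by norm_num) hS
  rcases (Nat.Prime.dvd_mul Nat.prime_two).mp h6 with h7 | h7
  · rcases (Nat.Prime.dvd_mul Nat.prime_two).mp h7 with h8 | h8
    · omega
    · exact h2 h8
  · omega

theorem f3a {b Q G : ℕ} (hG : 0 < G) (h3 : ¬ 3 ∣ Q)
    (h : (4 : ℚ) / 9 * ((Q : ℚ) / G) + 5 / 9 * gg (3 ^ (b + 1)) = 1) : False := by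
  obtain ⟨s, hs, hS⟩ := pow_pred (by norm_num : 2 ≤ 3) b
  rw [hS, gg_succ] at h
  have hs' : (s : ℚ) ≠ 0 := by exact_mod_cast hs.ne'
  have hG' : (G : ℚ) ≠ 0 := by exact_mod_cast hG.ne'
  have h1 : 4 * (Q * s) + 5 * ((s + 1) * G) = 9 * (s * G) := by
    have : (4 : ℚ) * (Q * s) + 5 * ((s + 1) * G) = 9 * (s * G) := by
      field_simp at h
      linarith
    exact_mod_cast this
  have h4 := dvd_succ_of hS
  have h5 : 3 ∣ (s + 1) * G := h4.mul_right _
  have h6 : 3 ∣ Q * s := by omega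
  rcases (Nat.Prime.dvd_mul Nat.prime_three).mp h6 with h7 | h7
  · exact h3 h7
  · exact not_dvd_of_succ (by norm_num) h4 h7

theorem f3b {b Q G : ℕ} (hG : 0 < G) (h2 : ¬ 2 ∣ Q)
    (h : (4 : ℚ) / 9 + 5 / 9 * gg (3 ^ (b + 1)) * ((Q : ℚ) / G) = 1) : False := by
  obtain ⟨s, hs, hS⟩ := pow_pred (by norm_num : 2 ≤ 3) b
  rw [hS, gg_succ] at h
  have hs' : (s : ℚ) ≠ 0 := by exact_mod_cast hs.ne'
  have hG' : (G : ℚ) ≠ 0 := by exact_mod_cast hG.ne'
  have h1 : (s + 1) * Q = s * G := by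
    have : ((s : ℚ) + 1) * Q = s * G := by
      field_simp at h
      linarith
    exact_mod_cast this
  have h9 := odd_of_pow (by norm_num) hS
  have h6 : 2 ∣ (s + 1) * Q := h1 ▸ h9.mul_right G
  rcases (Nat.Prime.dvd_mul Nat.prime_two).mp h6 with h7 | h7
  · omega
  · exact h2 h7

/-- families 4 and 5, last prime on the side of 3 and 5 -/
theorem f45b {b d Q G : ℕ} (hG : 0 < G) (h2 : ¬ 2 ∣ Q)
    (h : gg (3 ^ (b + 1)) * gg (5 ^ (d + 1)) * ((Q : ℚ) / G) = 1) : False := by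
  obtain ⟨s, hs, hS⟩ := pow_pred (by norm_num : 2 ≤ 3) b
  obtain ⟨t, ht, hT⟩ := pow_pred (by norm_num : 2 ≤ 5) d
  rw [hS, hT, gg_succ, gg_succ] at h
  have hs' : (s : ℚ) ≠ 0 := by exact_mod_cast hs.ne'
  have ht' : (t : ℚ) ≠ 0 := by exact_mod_cast ht.ne'
  have hG' : (G : ℚ) ≠ 0 := by exact_mod_cast hG.ne'
  have h1 : (s + 1) * (t + 1) * Q = s * (t * G) := by
    have : ((s : ℚ) + 1) * (t + 1) * Q = s * (t * G) := by
      field_simp at h
      linarith
    exact_mod_cast this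
  have h9 := odd_of_pow (by norm_num) hS
  have h10 := odd_of_pow (by norm_num) hT
  have h6 : 2 ∣ (s + 1) * (t + 1) * Q := h1 ▸ h9.mul_right _
  rcases (Nat.Prime.dvd_mul Nat.prime_two).mp h6 with h7 | h7
  · rcases (Nat.Prime.dvd_mul Nat.prime_two).mp h7 with h8 | h8 <;> omega
  · exact h2 h7

theorem key45 {p e r s W Z : ℕ} (hp : p.Prime) (hR : p ^ (e + 1) = r + 1) (hs : 0 < s)
    (hW : ¬ p ∣ W) (h : s * (r * W) = (r + 1) * Z) : r + 1 ≤ s := by
  have h1 : ¬ p ∣ r := not_dvd_of_succ hp.two_le (dvd_succ_of hR)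
  have h2 : ¬ p ∣ r * W := fun h' => by
    rcases (Nat.Prime.dvd_mul hp).mp h' with h3 | h3
    · exact h1 h3
    · exact hW h3
  have h3 : Nat.Coprime (r + 1) (r * W) := by
    rw [← hR]
    exact Nat.Coprime.pow_left _ ((Nat.Prime.coprime_iff_not_dvd hp).mpr h2)
  exact Nat.le_of_dvd hs (h3.dvd_of_dvd_mul_right ⟨Z, h⟩)

/-- families 4 and 5, last prime on the side of 2 -/
theorem f45a {i j b d Q G : ℕ} (hi : i = 7 ∧ j = 8 ∨ i = 8 ∧ j = 7) (hG : 0 < G)
    (h3 : ¬ 3 ∣ Q) (h5 : ¬ 5 ∣ Q)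
    (h : (i : ℚ) / 15 * ((Q : ℚ) / G) + (j : ℚ) / 15 * (gg (3 ^ (b + 1)) * gg (5 ^ (d + 1))) = 1) :
    False := by
  obtain ⟨s, hs, hS⟩ := pow_pred (by norm_num : 2 ≤ 3) b
  obtain ⟨t, ht, hT⟩ := pow_pred (by norm_num : 2 ≤ 5) d
  rw [hS, hT, gg_succ, gg_succ] at h
  have hs' : (s : ℚ) ≠ 0 := by exact_mod_cast hs.ne'
  have ht' : (t : ℚ) ≠ 0 := by exact_mod_cast ht.ne'
  have hG' : (G : ℚ) ≠ 0 := by exact_mod_cast hG.ne'
  have h1 : s * t * (i * Q) + j * ((s + 1) * (t + 1) * G) = s * t * (15 * G) := by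
    have : (s : ℚ) * t * (i * Q) + j * ((s + 1) * (t + 1) * G) = s * t * (15 * G) := by
      field_simp at h
      linarith
    exact_mod_cast this
  have h2 : i * Q ≤ 15 * G := Nat.le_of_mul_le_mul_left (by omega) (Nat.mul_pos hs ht)
  obtain ⟨W, hW⟩ := Nat.exists_eq_add_of_le h2
  rw [hW, mul_add (s * t)] at h1
  have h4 : j * ((s + 1) * (t + 1) * G) = s * t * W := by omega
  have hW3 : ¬ 3 ∣ W := by rcases hi with ⟨rfl, rfl⟩ | ⟨rfl, rfl⟩ <;> omega
  have hW5 : ¬ 5 ∣ W := by rcases hi with ⟨rfl, rfl⟩ | ⟨rfl, rfl⟩ <;> omega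
  have k1 : t + 1 ≤ s := key45 (Z := j * ((s + 1) * G)) Nat.prime_five hT hs hW5 (by
    rw [← mul_assoc, ← h4]; ring)
  have k2 : s + 1 ≤ t := key45 (Z := j * ((t + 1) * G)) Nat.prime_three hS ht hW3 (by
    rw [← mul_assoc, mul_comm t s, ← h4]; ring)
  omega

end Pool.Agent.MP_2876a2_nt

end

section

/-! Soundness of the branch-and-bound checker. -/

namespace Pool.Agent.MP_2876a2_nt

def Good (m n : ℕ) : Prop :=
  (m = 64 ∧ n = 173369889) ∨
    (n = 135 ∧ ∃ p, 5 ≤ p ∧ (2 ^ p - 1).Prime ∧ m = 7 * 2 ^ (p - 1) * (2 ^ p - 1))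

def Snd (a : ℕ → ℕ) (ih : Chk) (Φ : ℚ → ℕ → ℚ → ℕ → Prop) : Prop :=
  ∀ An Ad m0 O1 Bn Bd n0 O2 xv mv yv nv, Side a An Ad m0 O1 xv mv → Side a Bn Bd n0 O2 yv nv →
    ih An Ad m0 O1 Bn Bd n0 O2 = true → Φ xv mv yv nv

theorem snd_splF {a : ℕ → ℕ} {ih : Chk} {Φ : ℚ → ℕ → ℚ → ℕ → Prop} (h : Snd a ih Φ) :
    Snd a (splF ih) Φ := by
  intro An Ad m0 O1 Bn Bd n0 O2 xv mv yv nv h1 h2 hc
  cases O1 with
  | nil => exact absurd hc Bool.false_ne_true
  | cons x t =>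
    have hc' : (ih (An * x.2) (Ad * (x.2 - 1)) (m0 * (x.2 / x.1)) t Bn Bd n0 O2
      && ih An Ad m0 (ins x.1 (x.2 * x.1) t) Bn Bd n0 O2) = true := hc
    rw [Bool.and_eq_true] at hc'
    rcases h1.split with h3 | h3
    · exact h _ _ _ _ _ _ _ _ _ _ _ _ h3 h2 hc'.1
    · exact h _ _ _ _ _ _ _ _ _ _ _ _ h3 h2 hc'.2

theorem snd_splT {a : ℕ → ℕ} {ih : Chk} {Φ : ℚ → ℕ → ℚ → ℕ → Prop} (h : Snd a ih Φ) :
    Snd a (splT ih) Φ := by
  intro An Ad m0 O1 Bn Bd n0 O2 xv mv yv nv h1 h2 hc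
  cases O2 with
  | nil => exact absurd hc Bool.false_ne_true
  | cons x t =>
    have hc' : (ih An Ad m0 O1 (Bn * x.2) (Bd * (x.2 - 1)) (n0 * (x.2 / x.1)) t
      && ih An Ad m0 O1 Bn Bd n0 (ins x.1 (x.2 * x.1) t)) = true := hc
    rw [Bool.and_eq_true] at hc'
    rcases h2.split with h3 | h3
    · exact h _ _ _ _ _ _ _ _ _ _ _ _ h1 h3 hc'.1
    · exact h _ _ _ _ _ _ _ _ _ _ _ _ h1 h3 hc'.2

theorem cond_true {b x y : Bool} (h : (bif b then x else y) = true) :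
    (b = true ∧ x = true) ∨ (b = false ∧ y = true) := by
  cases b
  · exact Or.inr ⟨rfl, h⟩
  · exact Or.inl ⟨rfl, h⟩

theorem snd_spl {a : ℕ → ℕ} {ih : Chk} {Φ : ℚ → ℕ → ℚ → ℕ → Prop} (h : Snd a ih Φ) :
    Snd a (spl ih) Φ := by
  intro An Ad m0 O1 Bn Bd n0 O2 xv mv yv nv h1 h2 hc
  rcases cond_true hc with ⟨-, h3⟩ | ⟨-, h3⟩
  · exact snd_splF h _ _ _ _ _ _ _ _ _ _ _ _ h1 h2 h3
  · exact snd_splT h _ _ _ _ _ _ _ _ _ _ _ _ h1 h2 h3

theorem frac_add {a b c d : ℕ} (hb : 0 < b) (hd : 0 < d) :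
    (a : ℚ) / b + (c : ℚ) / d = ((a * d + c * b : ℕ) : ℚ) / ((b * d : ℕ) : ℚ) := by
  have hb' : (b : ℚ) ≠ 0 := by exact_mod_cast hb.ne'
  have hd' : (d : ℚ) ≠ 0 := by exact_mod_cast hd.ne'
  push_cast
  field_simp

section
variable {a : ℕ → ℕ} {An Ad m0 Bn Bd n0 mv nv : ℕ} {O1 O2 : OL} {xv yv : ℚ}

theorem hi_bounds (h1 : Side a An Ad m0 O1 xv mv) (h2 : Side a Bn Bd n0 O2 yv nv) :
    0 < hZ Ad O1 Bd O2 ∧ xv * hZ Ad O1 Bd O2 ≤ hX An O1 Bd O2 ∧
      yv * hZ Ad O1 Bd O2 ≤ hX Bn O2 Ad O1 := by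
  obtain ⟨p1, q1⟩ := h1.hi
  obtain ⟨p2, q2⟩ := h2.hi
  have e1 : hZ Ad O1 Bd O2 = (Ad * hiD O1) * (Bd * hiD O2) := rfl
  have e2 : hX An O1 Bd O2 = (An * hiN O1) * (Bd * hiD O2) := rfl
  have e3 : hX Bn O2 Ad O1 = (Bn * hiN O2) * (Ad * hiD O1) := rfl
  have p1' : (0 : ℚ) < ((Ad * hiD O1 : ℕ) : ℚ) := by exact_mod_cast p1
  have p2' : (0 : ℚ) < ((Bd * hiD O2 : ℕ) : ℚ) := by exact_mod_cast p2
  rw [le_div_iff₀ p1'] at q1
  rw [le_div_iff₀ p2'] at q2
  rw [e1, e2, e3]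
  refine ⟨Nat.mul_pos p1 p2, ?_, ?_⟩
  · rw [Nat.cast_mul (Ad * hiD O1), Nat.cast_mul (An * hiN O1), ← mul_assoc]
    exact mul_le_mul_of_nonneg_right q1 p2'.le
  · rw [Nat.cast_mul (Ad * hiD O1), Nat.cast_mul (Bn * hiN O2), mul_comm ((Ad * hiD O1 : ℕ) : ℚ),
      ← mul_assoc]
    exact mul_le_mul_of_nonneg_right q2 p1'.le

theorem lo_bounds (h1 : Side a An Ad m0 O1 xv mv) (h2 : Side a Bn Bd n0 O2 yv nv) :
    0 < Ad * Bd ∧ ((An * Bd : ℕ) : ℚ) ≤ xv * ((Ad * Bd : ℕ) : ℚ) ∧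
      ((Bn * Ad : ℕ) : ℚ) ≤ yv * ((Ad * Bd : ℕ) : ℚ) := by
  have q1 := h1.lo
  have q2 := h2.lo
  have p1 : (0 : ℚ) < Ad := by exact_mod_cast h1.hd
  have p2 : (0 : ℚ) < Bd := by exact_mod_cast h2.hd
  rw [div_le_iff₀ p1] at q1
  rw [div_le_iff₀ p2] at q2
  refine ⟨Nat.mul_pos h1.hd h2.hd, ?_, ?_⟩
  · push_cast
    nlinarith
  · push_cast
    nlinarith

theorem hiB_sound (h1 : Side a An Ad m0 O1 xv mv) (h2 : Side a Bn Bd n0 O2 yv nv)
    (h : hiB An Ad O1 Bn Bd O2 = true) : xv + yv < 1 := by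
  obtain ⟨p, q1, q2⟩ := hi_bounds h1 h2
  have h3 : hX An O1 Bd O2 + hX Bn O2 Ad O1 < hZ Ad O1 Bd O2 := Nat.blt_eq.mp h
  have h4 : (hX An O1 Bd O2 : ℚ) + hX Bn O2 Ad O1 < hZ Ad O1 Bd O2 := by exact_mod_cast h3
  have p' : (0 : ℚ) < hZ Ad O1 Bd O2 := by exact_mod_cast p
  by_contra hc
  have : (0 : ℚ) ≤ (xv + yv - 1) * hZ Ad O1 Bd O2 := mul_nonneg (by linarith) p'.le
  nlinarith

theorem lo_sound (h1 : Side a An Ad m0 O1 xv mv) (h2 : Side a Bn Bd n0 O2 yv nv)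
    (h : Ad * Bd < An * Bd + Bn * Ad) : 1 < xv + yv := by
  have q1 := h1.lo
  have q2 := h2.lo
  have h3 := frac_add (a := An) (c := Bn) h1.hd h2.hd
  have p : (0 : ℚ) < ((Ad * Bd : ℕ) : ℚ) := by exact_mod_cast Nat.mul_pos h1.hd h2.hd
  have h4 : (1 : ℚ) < ((An * Bd + Bn * Ad : ℕ) : ℚ) / ((Ad * Bd : ℕ) : ℚ) := by
    rw [one_lt_div p]
    exact_mod_cast h
  linarith

theorem lo_sound' (h1 : Side a An Ad m0 O1 xv mv) (h2 : Side a Bn Bd n0 O2 yv nv)
    (h : Ad * Bd = An * Bd + Bn * Ad) (hO : (isNil O1 && isNil O2) = false) : 1 < xv + yv := by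
  have q1 := h1.lo
  have q2 := h2.lo
  have h3 := frac_add (a := An) (c := Bn) h1.hd h2.hd
  have p : (0 : ℚ) < ((Ad * Bd : ℕ) : ℚ) := by exact_mod_cast Nat.mul_pos h1.hd h2.hd
  rw [← h, div_self p.ne'] at h3
  rcases Bool.and_eq_false_iff.mp hO with h5 | h5
  · have := h1.lo_lt h5
    linarith
  · have := h2.lo_lt h5
    linarith

end

theorem isNil_eq {O : OL} (h : isNil O = true) : O = [] := by
  cases O with
  | nil => rfl
  | cons x t => exact absurd h Bool.false_ne_true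

theorem isOne_eq {p : ℕ} {O : OL} (h : isOne p O = true) : ∃ P, O = [(p, P)] := by
  cases O with
  | nil => exact absurd h Bool.false_ne_true
  | cons x t =>
    have h' : (Nat.beq x.1 p && isNil t) = true := h
    rw [Bool.and_eq_true] at h'
    refine ⟨x.2, ?_⟩
    rw [isNil_eq h'.2, ← Nat.eq_of_beq_eq_true h'.1]

theorem gp_one {a : ℕ → ℕ} {p : ℕ} {O : OL} (h : isOne p O = true) :
    gp a O = gg (p ^ (a p + 1)) := by
  obtain ⟨P, rfl⟩ := isOne_eq h
  rw [gp_cons, gp_nil, mul_one]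

theorem gp_35 {a : ℕ → ℕ} {O : OL} (h : is35 O = true) :
    gp a O = gg (3 ^ (a 3 + 1)) * gg (5 ^ (a 5 + 1)) := by
  cases O with
  | nil => exact absurd h Bool.false_ne_true
  | cons x t =>
    have h' : ((Nat.beq x.1 3 && isOne 5 t) || (Nat.beq x.1 5 && isOne 3 t)) = true := h
    rw [Bool.or_eq_true, Bool.and_eq_true, Bool.and_eq_true] at h'
    rcases h' with ⟨h1, h2⟩ | ⟨h1, h2⟩
    · rw [gp_cons, gp_one h2, Nat.eq_of_beq_eq_true h1]
    · rw [gp_cons, gp_one h2, Nat.eq_of_beq_eq_true h1, mul_comm]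

theorem frac_eq {i j An Ad : ℕ} (h : frac i j An Ad = true) (hj : 0 < j) (hd : 0 < Ad) :
    (An : ℚ) / Ad = (i : ℚ) / j := by
  have h1 : j * An = i * Ad := Nat.eq_of_beq_eq_true h
  have h2 : (j : ℚ) * An = i * Ad := by exact_mod_cast h1
  have hj' : (0 : ℚ) < j := by exact_mod_cast hj
  have hd' : (0 : ℚ) < Ad := by exact_mod_cast hd
  rw [div_eq_div_iff hd'.ne' hj'.ne']
  linarith

theorem good_sound {m n : ℕ} (h : good m n = true) : Good m n := by
  unfold good at h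
  rw [Bool.or_eq_true, Bool.and_eq_true, Bool.and_eq_true] at h
  rcases h with ⟨h1, h2⟩ | ⟨h1, h2⟩
  · exact Or.inl ⟨Nat.eq_of_beq_eq_true h1, Nat.eq_of_beq_eq_true h2⟩
  · refine Or.inr ⟨Nat.eq_of_beq_eq_true h2, 5, le_refl _, by norm_num, ?_⟩
    rw [Nat.eq_of_beq_eq_true h1]
    norm_num

def Phi0 (xv : ℚ) (mv : ℕ) (yv : ℚ) (nv : ℕ) : Prop := xv + yv = 1 → Good mv nv

theorem snd_chk0 (a : ℕ → ℕ) (f : ℕ) : Snd a (chk0 f) Phi0 := by
  induction f with
  | zero =>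
    intro An Ad m0 O1 Bn Bd n0 O2 xv mv yv nv _ _ hc
    exact absurd hc Bool.false_ne_true
  | succ f ih =>
    intro An Ad m0 O1 Bn Bd n0 O2 xv mv yv nv h1 h2 hc he
    have hc' : (bif hiB An Ad O1 Bn Bd O2 then true
      else bif Nat.blt (Ad * Bd) (An * Bd + Bn * Ad) then true
      else bif isNil O1 && isNil O2 then good m0 n0
      else bif Nat.beq (Ad * Bd) (An * Bd + Bn * Ad) then true
      else spl (chk0 f) An Ad m0 O1 Bn Bd n0 O2) = true := hc
    rcases cond_true hc' with ⟨h3, -⟩ | ⟨-, hc2⟩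
    · exact absurd he (hiB_sound h1 h2 h3).ne
    rcases cond_true hc2 with ⟨h3, -⟩ | ⟨-, hc3⟩
    · exact absurd he (lo_sound h1 h2 (Nat.blt_eq.mp h3)).ne'
    rcases cond_true hc3 with ⟨h3, h4⟩ | ⟨h3, hc4⟩
    · rw [Bool.and_eq_true] at h3
      have e1 := h1.hm
      have e2 := h2.hm
      rw [isNil_eq h3.1, np_nil, mul_one] at e1
      rw [isNil_eq h3.2, np_nil, mul_one] at e2
      rw [e1, e2]
      exact good_sound h4
    rcases cond_true hc4 with ⟨h4, -⟩ | ⟨-, hc5⟩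
    · exact absurd he (lo_sound' h1 h2 (Nat.eq_of_beq_eq_true h4) h3).ne'
    exact snd_spl ih _ _ _ _ _ _ _ _ _ _ _ _ h1 h2 hc5 he

theorem comp_sound {q : ℕ} (h : comp q = true) : ¬ q.Prime := by
  intro hq
  unfold comp at h
  rw [Bool.or_eq_true, Bool.or_eq_true, Bool.and_eq_true, Bool.and_eq_true] at h
  rcases h with (⟨h1, h2⟩ | ⟨h1, h2⟩) | h1
  · have h3 : 13 < q := Nat.blt_eq.mp h1
    have h4 : Nat.gcd q 30030 ≠ 1 := by
      intro h5
      rw [h5] at h2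
      exact absurd h2 (by decide)
    have h5 : q ∣ 2 * 3 * 5 * 7 * 11 * 13 := by
      by_contra h6
      exact h4 ((Nat.Prime.coprime_iff_not_dvd hq).mpr h6)
    simp only [Nat.Prime.dvd_mul hq] at h5
    rcases h5 with ((((h6 | h6) | h6) | h6) | h6) | h6 <;>
      exact absurd (Nat.le_of_dvd (by norm_num) h6) (by omega)
  · have h3 : 2 < q := Nat.blt_eq.mp h1
    have h4 : q % 2 = 0 := Nat.eq_of_beq_eq_true h2
    rcases hq.eq_two_or_odd with h5 | h5 <;> omega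
  · have h3 : q = 9 := Nat.eq_of_beq_eq_true h1
    rw [h3] at hq
    exact absurd hq (by norm_num)

theorem allFrom_sound {g : ℕ → Bool} {k : ℕ} :
    ∀ {q0 : ℕ}, allFrom g k q0 = true → ∀ q, q0 ≤ q → q < q0 + k → g q = true := by
  induction k with
  | zero => intro q0 _ q h1 h2; omega
  | succ k ih =>
    intro q0 h q h1 h2
    have h' : (g q0 && allFrom g k (q0 + 1)) = true := h
    rw [Bool.and_eq_true] at h'
    rcases Nat.eq_or_lt_of_le h1 with h3 | h3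
    · rw [← h3]
      exact h'.1
    · exact ih h'.2 q h3 (by omega)

theorem mx_eq (x y : ℕ) : mx x y = max x y := by
  unfold mx
  cases h : Nat.ble x y
  · have : ¬ x ≤ y := fun h' => by
      rw [Nat.ble_eq_true_of_le h'] at h
      exact absurd h (by decide)
    show x = max x y
    omega
  · have : x ≤ y := Nat.le_of_ble_eq_true h
    show y = max x y
    omega

/-- the last prime lies in the interval that is searched -/
theorem range_ok {xv yv l : ℚ} {q Q X Y Z x y z : ℕ} (hq : 2 ≤ q) (hQ : Q ≤ q) (hx0 : 0 < xv)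
    (hZ : 0 < Z) (hX : xv * Z ≤ X) (hY : yv * Z ≤ Y) (hz : 0 < z) (hx : (x : ℚ) ≤ xv * z)
    (hy : (y : ℚ) ≤ yv * z) (hlo : z < x + y) (h1 : 1 < xv + yv)
    (l1 : ((q : ℚ) - 1) / q < l) (l2 : l ≤ (q : ℚ) / (q + 1)) (he : xv * l + yv = 1) :
    qlo Q X (X + Y - Z) ≤ q ∧
      q < qlo Q X (X + Y - Z) + qnum Q X (X + Y - Z) x (x + y - z) := by
  have hq' : (2 : ℚ) ≤ q := by exact_mod_cast hq
  have hZ' : (0 : ℚ) < Z := by exact_mod_cast hZ
  have hz' : (0 : ℚ) < z := by exact_mod_cast hz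
  have hD : Z < X + Y := by
    have : (Z : ℚ) < X + Y := by nlinarith
    exact_mod_cast this
  obtain ⟨D, hD1⟩ := Nat.exists_eq_add_of_lt hD
  obtain ⟨d, hd1⟩ := Nat.exists_eq_add_of_lt hlo
  have e1 : X + Y - Z = D + 1 := by omega
  have e2 : x + y - z = d + 1 := by omega
  have hD2 : (X : ℚ) + Y = Z + D + 1 := by exact_mod_cast hD1
  have hd2 : (x : ℚ) + y = z + d + 1 := by exact_mod_cast hd1
  rw [div_lt_iff₀ (by linarith)] at l1
  rw [le_div_iff₀ (by linarith)] at l2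
  have a1 : X ≤ (q + 1) * (D + 1) := by
    have b1 : xv * (l * (q + 1)) ≤ xv * q := mul_le_mul_of_nonneg_left l2 hx0.le
    have b2 : ((q : ℚ) + 1) * Z = xv * (l * (q + 1)) * Z + (q + 1) * (yv * Z) := by
      have : ((q : ℚ) + 1) * Z = (xv * l + yv) * ((q + 1) * Z) := by rw [he, one_mul]
      rw [this]
      ring
    have b3 : xv * (l * (q + 1)) * Z ≤ xv * q * Z := mul_le_mul_of_nonneg_right b1 hZ'.le
    have b4 : (q : ℚ) * (xv * Z) ≤ q * X := mul_le_mul_of_nonneg_left hX (by linarith)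
    have b5 : ((q : ℚ) + 1) * (yv * Z) ≤ (q + 1) * Y := mul_le_mul_of_nonneg_left hY (by linarith)
    have : (X : ℚ) ≤ (q + 1) * (D + 1) := by nlinarith
    exact_mod_cast this
  have a2 : q * (d + 1) ≤ x := by
    have b1 : xv * ((q : ℚ) - 1) ≤ xv * (l * q) := mul_le_mul_of_nonneg_left l1.le hx0.le
    have b2 : (q : ℚ) * z = xv * (l * q) * z + q * (yv * z) := by
      have : (q : ℚ) * z = (xv * l + yv) * (q * z) := by rw [he, one_mul]
      rw [this]
      ring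
    have b3 : xv * ((q : ℚ) - 1) * z ≤ xv * (l * q) * z := mul_le_mul_of_nonneg_right b1 hz'.le
    have b4 : ((q : ℚ) - 1) * x ≤ (q - 1) * (xv * z) := mul_le_mul_of_nonneg_left hx (by linarith)
    have b5 : (q : ℚ) * y ≤ q * (yv * z) := mul_le_mul_of_nonneg_left hy (by linarith)
    have : (q : ℚ) * (d + 1) ≤ x := by nlinarith
    exact_mod_cast this
  have a3 : X / (D + 1) ≤ q + 1 := Nat.div_le_of_le_mul (by rw [mul_comm]; exact a1)
  have a4 : q ≤ x / (d + 1) := (Nat.le_div_iff_mul_le (Nat.succ_pos d)).mpr a2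
  have e3 : qlo Q X (D + 1) = max Q (X / (D + 1) - 1) := mx_eq _ _
  have e4 : qnum Q X (D + 1) x (d + 1) = x / (d + 1) + 1 - qlo Q X (D + 1) := rfl
  rw [e1, e2, e4, e3]
  omega

def Phi1 (a : ℕ → ℕ) (Q : ℕ) (xv : ℚ) (mv : ℕ) (yv : ℚ) (nv : ℕ) : Prop :=
  (xv + yv = 1 → Good mv nv) ∧ ∀ q, q.Prime → Q ≤ q → 1 ≤ a q →
    (xv * ell q (a q) + yv = 1 → Good (mv * q ^ a q) nv) ∧
      (xv + yv * ell q (a q) = 1 → Good mv (nv * q ^ a q))

theorem not_dvd_pow {q p : ℕ} (hq : q.Prime) (h8 : 8 ≤ q) (hp : p.Prime) (hp7 : p ≤ 7) (c : ℕ) :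
    ¬ p ∣ q ^ c := fun h => by
  have := (Nat.prime_dvd_prime_iff_eq hp hq).mp (hp.dvd_of_dvd_pow h)
  omega

theorem coprime_geom (q c : ℕ) : Nat.Coprime (q ^ c) (∑ i ∈ Finset.range (c + 1), q ^ i) := by
  apply Nat.Coprime.pow_left
  rw [Finset.sum_range_succ', pow_zero]
  have : q ∣ ∑ i ∈ Finset.range c, q ^ (i + 1) :=
    Finset.dvd_sum fun i _ => dvd_pow_self q (Nat.succ_ne_zero i)
  obtain ⟨w, hw⟩ := this
  rw [hw]
  simp

theorem geom_eq_succ {q c : ℕ} (hq : 2 ≤ q) (hc : 1 ≤ c)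
    (h : ∑ i ∈ Finset.range (c + 1), q ^ i = q ^ c + 1) : c = 1 := by
  by_contra h1
  obtain ⟨e, rfl⟩ : ∃ e, c = e + 2 := ⟨c - 2, by omega⟩
  rw [Finset.sum_range_succ, Finset.sum_range_succ] at h
  have h2 := geom_pos q e
  have h3 := two_le_pow_succ hq e
  omega

theorem snd_special (a : ℕ → ℕ) {Q : ℕ} (hQ : 8 ≤ Q) : Snd a special (Phi1 a Q) := by
  intro An Ad m0 O1 Bn Bd n0 O2 xv mv yv nv h1 h2 hc
  have e1 := h1.hx
  have e2 := h2.hx
  have one : (1 : ℚ) = ((1 : ℕ) : ℚ) / ((1 : ℕ) : ℚ) := by simp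
  have n2 : ¬ 2 ∣ 1 := by norm_num
  unfold special at hc
  simp only [Bool.or_eq_true, Bool.and_eq_true] at hc
  rcases hc with (((⟨⟨⟨⟨⟨c1, c2⟩, c3⟩, c4⟩, c5⟩, c6⟩ | ⟨⟨⟨c1, c2⟩, c3⟩, c4⟩) | ⟨⟨⟨c1, c2⟩, c3⟩, c4⟩) |
    ⟨⟨⟨c1, c2⟩, c3⟩, c4⟩) | ⟨⟨⟨c1, c2⟩, c3⟩, c4⟩
  · rw [frac_eq c3 (by norm_num) h1.hd, gp_one c1] at e1
    rw [frac_eq c4 (by norm_num) h2.hd, isNil_eq c2, gp_nil, mul_one] at e2
    refine ⟨fun he => (f1b (a := a 2) (Q := 1) (G := 1) Nat.one_pos n2 ?_).elim,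
      fun q hq hQq ha => ⟨fun he => ?_, fun he => (f1b (a := a 2) (geom_pos q (a q))
        (not_dvd_pow hq (le_trans hQ hQq) Nat.prime_two (by norm_num) (a q)) ?_).elim⟩⟩
    · rw [e1, e2] at he
      rw [← one, mul_one]
      exact_mod_cast he
    · rw [e1, e2] at he
      obtain ⟨k1, k2⟩ := f1a (a := a 2) (geom_pos q (a q)) (coprime_geom q (a q))
        (by exact_mod_cast he)
      have k3 := geom_eq_succ hq.two_le ha k2
      rw [k3, pow_one] at k1
      have k4 : q = 2 ^ (a 2 + 1) - 1 := by omega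
      have e3 := h1.hm
      have e4 := h2.hm
      obtain ⟨P, rfl⟩ := isOne_eq c1
      rw [np_cons, np_nil, mul_one, Nat.eq_of_beq_eq_true c5] at e3
      rw [isNil_eq c2, np_nil, mul_one, Nat.eq_of_beq_eq_true c6] at e4
      refine Or.inr ⟨e4, a 2 + 1, ?_, k4 ▸ hq, ?_⟩
      · by_contra h5
        have h6 : a 2 ≤ 3 := by omega
        have h7 : 8 ≤ q := le_trans hQ hQq
        interval_cases h8 : a 2
        · omega
        · omega
        · omega
        · rw [k4] at hq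
          exact absurd hq (by norm_num)
      · rw [e3, k3, pow_one, ← k4, Nat.add_sub_cancel]
    · rw [e1, e2] at he
      exact_mod_cast he
  · rw [frac_eq c3 (by norm_num) h1.hd, gp_one c1] at e1
    rw [frac_eq c4 (by norm_num) h2.hd, gp_one c2] at e2
    refine ⟨fun he => (f2b (a := a 2) (b := a 3) (Q := 1) (G := 1) Nat.one_pos n2 ?_).elim,
      fun q hq hQq ha => ⟨fun he => (f2a (a := a 2) (b := a 3) (geom_pos q (a q))
        (not_dvd_pow hq (le_trans hQ hQq) Nat.prime_three (by norm_num) (a q)) ?_).elim,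
        fun he => (f2b (a := a 2) (b := a 3) (geom_pos q (a q))
        (not_dvd_pow hq (le_trans hQ hQq) Nat.prime_two (by norm_num) (a q)) ?_).elim⟩⟩
    · rw [e1, e2] at he
      rw [← one, mul_one]
      exact_mod_cast he
    · rw [e1, e2] at he
      exact_mod_cast he
    · rw [e1, e2] at he
      exact_mod_cast he
  · rw [frac_eq c3 (by norm_num) h1.hd, isNil_eq c1, gp_nil, mul_one] at e1
    rw [frac_eq c4 (by norm_num) h2.hd, gp_one c2] at e2
    refine ⟨fun he => (f3b (b := a 3) (Q := 1) (G := 1) Nat.one_pos n2 ?_).elim,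
      fun q hq hQq ha => ⟨fun he => (f3a (b := a 3) (geom_pos q (a q))
        (not_dvd_pow hq (le_trans hQ hQq) Nat.prime_three (by norm_num) (a q)) ?_).elim,
        fun he => (f3b (b := a 3) (geom_pos q (a q))
        (not_dvd_pow hq (le_trans hQ hQq) Nat.prime_two (by norm_num) (a q)) ?_).elim⟩⟩
    · rw [e1, e2] at he
      rw [← one, mul_one]
      exact_mod_cast he
    · rw [e1, e2] at he
      exact_mod_cast he
    · rw [e1, e2] at he
      exact_mod_cast he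
  · rw [frac_eq c3 (by norm_num) h1.hd, isNil_eq c1, gp_nil, mul_one] at e1
    rw [frac_eq c4 (by norm_num) h2.hd, gp_35 c2] at e2
    refine ⟨fun he => (f45b (b := a 3) (d := a 5) (Q := 1) (G := 1) Nat.one_pos n2 ?_).elim,
      fun q hq hQq ha => ⟨fun he => (f45a (i := 7) (j := 8) (b := a 3) (d := a 5)
        (Or.inl ⟨rfl, rfl⟩) (geom_pos q (a q))
        (not_dvd_pow hq (le_trans hQ hQq) Nat.prime_three (by norm_num) (a q))
        (not_dvd_pow hq (le_trans hQ hQq) Nat.prime_five (by norm_num) (a q)) ?_).elim,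
        fun he => (f45b (b := a 3) (d := a 5) (geom_pos q (a q))
        (not_dvd_pow hq (le_trans hQ hQq) Nat.prime_two (by norm_num) (a q)) ?_).elim⟩⟩
    · rw [e1, e2] at he
      rw [← one, mul_one]
      push_cast at he
      linarith
    · rw [e1, e2] at he
      exact he
    · rw [e1, e2] at he
      push_cast at he
      show _ * ell q (a q) = 1
      linarith
  · rw [frac_eq c3 (by norm_num) h1.hd, isNil_eq c1, gp_nil, mul_one] at e1
    rw [frac_eq c4 (by norm_num) h2.hd, gp_35 c2] at e2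
    refine ⟨fun he => (f45b (b := a 3) (d := a 5) (Q := 1) (G := 1) Nat.one_pos n2 ?_).elim,
      fun q hq hQq ha => ⟨fun he => (f45a (i := 8) (j := 7) (b := a 3) (d := a 5)
        (Or.inr ⟨rfl, rfl⟩) (geom_pos q (a q))
        (not_dvd_pow hq (le_trans hQ hQq) Nat.prime_three (by norm_num) (a q))
        (not_dvd_pow hq (le_trans hQ hQq) Nat.prime_five (by norm_num) (a q)) ?_).elim,
        fun he => (f45b (b := a 3) (d := a 5) (geom_pos q (a q))
        (not_dvd_pow hq (le_trans hQ hQq) Nat.prime_two (by norm_num) (a q)) ?_).elim⟩⟩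
    · rw [e1, e2] at he
      rw [← one, mul_one]
      push_cast at he
      linarith
    · rw [e1, e2] at he
      exact he
    · rw [e1, e2] at he
      push_cast at he
      show _ * ell q (a q) = 1
      linarith

theorem snd_chk1 (a : ℕ → ℕ) (Q f : ℕ) : Snd a (chk1 Q f) (Phi1 a Q) := by
  induction f with
  | zero =>
    intro An Ad m0 O1 Bn Bd n0 O2 xv mv yv nv _ _ hc
    exact absurd hc Bool.false_ne_true
  | succ f ih =>
    intro An Ad m0 O1 Bn Bd n0 O2 xv mv yv nv h1 h2 hc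
    have hc' : (bif hiB An Ad O1 Bn Bd O2 then true
      else bif Nat.blt (Ad * Bd) (An * Bd + Bn * Ad) then
        step1 Q (chk1 Q f) (hX An O1 Bd O2) (hX Bn O2 Ad O1)
          (hX An O1 Bd O2 + hX Bn O2 Ad O1 - hZ Ad O1 Bd O2)
          (An * Bd) (Bn * Ad) (An * Bd + Bn * Ad - Ad * Bd) An Ad m0 O1 Bn Bd n0 O2
      else bif Nat.ble 8 Q && special An Ad m0 O1 Bn Bd n0 O2 then true
      else spl (chk1 Q f) An Ad m0 O1 Bn Bd n0 O2) = true := hc
    have px := h1.pos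
    have py := h2.pos
    rcases cond_true hc' with ⟨h3, -⟩ | ⟨-, hc2⟩
    · have h4 := hiB_sound h1 h2 h3
      refine ⟨fun he => absurd he h4.ne, fun q hq _ ha => ?_⟩
      have h5 := ell_le_one hq.two_le ha
      refine ⟨fun he => ?_, fun he => ?_⟩
      · exfalso
        nlinarith
      · exfalso
        nlinarith
    rcases cond_true hc2 with ⟨h3, hc3⟩ | ⟨-, hc3⟩
    · have h4 : Ad * Bd < An * Bd + Bn * Ad := Nat.blt_eq.mp h3
      have h5 := lo_sound h1 h2 h4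
      rcases cond_true hc3 with ⟨-, hc4⟩ | ⟨-, hc4⟩
      · unfold last at hc4
        rw [Bool.and_eq_true] at hc4
        obtain ⟨pZ, pX, pY⟩ := hi_bounds h1 h2
        obtain ⟨pz, qx, qy⟩ := lo_bounds h1 h2
        refine ⟨fun he => absurd he h5.ne', fun q hq hQq ha => ⟨fun he => ?_, fun he => ?_⟩⟩
        · obtain ⟨r1, r2⟩ := range_ok hq.two_le hQq px pZ pX pY pz qx qy h4 h5
            (ell_lo hq.two_le (a q)) (ell_hi hq.two_le ha) he
          have h6 := allFrom_sound hc4.1 q r1 r2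
          rw [Bool.or_eq_true] at h6
          rcases h6 with h7 | h7
          · exact absurd hq (comp_sound h7)
          · exact snd_chk0 a 200 _ _ _ _ _ _ _ _ _ _ _ _ (h1.add hq.two_le ha) h2 h7 he
        · obtain ⟨r1, r2⟩ := range_ok hq.two_le hQq py pZ pY pX pz qy qx (by omega)
            (by linarith) (ell_lo hq.two_le (a q)) (ell_hi hq.two_le ha) (by linarith)
          rw [add_comm (hX Bn O2 Ad O1), add_comm (Bn * Ad)] at r2
          rw [add_comm (hX Bn O2 Ad O1)] at r1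
          have h6 := allFrom_sound hc4.2 q r1 r2
          rw [Bool.or_eq_true] at h6
          rcases h6 with h7 | h7
          · exact absurd hq (comp_sound h7)
          · exact snd_chk0 a 200 _ _ _ _ _ _ _ _ _ _ _ _ h1 (h2.add hq.two_le ha) h7 he
      · exact snd_spl ih _ _ _ _ _ _ _ _ _ _ _ _ h1 h2 hc4
    rcases cond_true hc3 with ⟨h3, -⟩ | ⟨-, hc4⟩
    · rw [Bool.and_eq_true] at h3
      exact snd_special a (Nat.le_of_ble_eq_true h3.1) _ _ _ _ _ _ _ _ _ _ _ _ h1 h2 h3.2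
    · exact snd_spl ih _ _ _ _ _ _ _ _ _ _ _ _ h1 h2 hc4

end Pool.Agent.MP_2876a2_nt

end

section

/-! The search over the small primes, and the link with the sum-of-divisors function. -/

namespace Pool.Agent.MP_2876a2_nt

open ArithmeticFunction

def up (a : ℕ → ℕ) (sd : ℕ → Bool) (s : Bool) (U : List ℕ) : ℚ :=
  (U.map fun q => if sd q = s then ell q (a q) else 1).prod

def nu (a : ℕ → ℕ) (sd : ℕ → Bool) (s : Bool) (U : List ℕ) : ℕ :=
  (U.map fun q => if sd q = s then q ^ a q else 1).prod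

theorem up_cons (a : ℕ → ℕ) (sd : ℕ → Bool) (s : Bool) (q : ℕ) (U : List ℕ) :
    up a sd s (q :: U) = (if sd q = s then ell q (a q) else 1) * up a sd s U := by
  simp [up]

theorem nu_cons (a : ℕ → ℕ) (sd : ℕ → Bool) (s : Bool) (q : ℕ) (U : List ℕ) :
    nu a sd s (q :: U) = (if sd q = s then q ^ a q else 1) * nu a sd s U := by
  simp [nu]

theorem up_nil (a : ℕ → ℕ) (sd : ℕ → Bool) (s : Bool) : up a sd s [] = 1 := rfl

theorem nu_nil (a : ℕ → ℕ) (sd : ℕ → Bool) (s : Bool) : nu a sd s [] = 1 := rfl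

theorem up_range {a : ℕ → ℕ} {sd : ℕ → Bool} {s : Bool} {U : List ℕ}
    (h : ∀ q ∈ U, 2 ≤ q ∧ 1 ≤ a q) : 0 < up a sd s U ∧ up a sd s U ≤ 1 := by
  induction U with
  | nil => rw [up_nil]; exact ⟨one_pos, le_refl _⟩
  | cons q U ih =>
    obtain ⟨h1, h2⟩ := ih fun x hx => h x (List.mem_cons_of_mem _ hx)
    obtain ⟨h3, h4⟩ := h q List.mem_cons_self
    have h5 := ell_pos h3 (a q)
    have h6 := ell_le_one h3 h4
    rw [up_cons]
    split_ifs
    · exact ⟨mul_pos h5 h1, by nlinarith⟩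
    · rw [one_mul]
      exact ⟨h1, h2⟩

theorem up_lower {a : ℕ → ℕ} {sd : ℕ → Bool} {Q : ℕ} {x y M : ℚ} (hx : 0 ≤ x) (hy : 0 ≤ y)
    (hxM : x ≤ M) (hyM : y ≤ M) {U : List ℕ} (h : ∀ q ∈ U, 2 ≤ q ∧ Q ≤ q ∧ 1 ≤ a q) :
    Q * (x + y) ≤ Q * (x * up a sd false U + y * up a sd true U) + U.length * M := by
  induction U with
  | nil => simp [up_nil]
  | cons q U ih =>
    have h1 := ih fun x hx => h x (List.mem_cons_of_mem _ hx)
    obtain ⟨h3, h4, h5⟩ := h q List.mem_cons_self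
    have hU : ∀ q ∈ U, 2 ≤ q ∧ 1 ≤ a q := fun x hx =>
      ⟨(h x (List.mem_cons_of_mem _ hx)).1, (h x (List.mem_cons_of_mem _ hx)).2.2⟩
    have h6 := ell_lo h3 (a q)
    have h7 := ell_le_one h3 h5
    have hq' : (2 : ℚ) ≤ q := by exact_mod_cast h3
    have hQ' : (Q : ℚ) ≤ q := by exact_mod_cast h4
    have hQ0 : (0 : ℚ) ≤ Q := Nat.cast_nonneg Q
    rw [div_lt_iff₀ (by linarith)] at h6
    have h8 : (Q : ℚ) * (1 - ell q (a q)) ≤ 1 := by nlinarith
    have key : ∀ w u : ℚ, 0 ≤ w → w ≤ M → 0 < u → u ≤ 1 →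
        Q * (w * u) ≤ Q * (w * (ell q (a q) * u)) + M := by
      intro w u w0 wM u0 u1
      have k1 : w * u ≤ M := by nlinarith
      have k2 : 0 ≤ w * u := mul_nonneg w0 u0.le
      have k3 : (w * u) * (Q * (1 - ell q (a q))) ≤ (w * u) * 1 := mul_le_mul_of_nonneg_left h8 k2
      nlinarith
    obtain ⟨f0, f1⟩ := up_range (sd := sd) (s := false) hU
    obtain ⟨t0, t1⟩ := up_range (sd := sd) (s := true) hU
    rw [up_cons, up_cons, List.length_cons]
    push_cast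
    cases hs : sd q
    · have := key x _ hx hxM f0 f1
      simp only [if_true, Bool.false_eq_true, if_false, one_mul]
      linarith
    · have := key y _ hy hyM t0 t1
      simp only [if_true, Bool.true_eq_false, if_false, one_mul]
      linarith

theorem snd_chkR (a : ℕ → ℕ) (sd : ℕ → Bool) (hsd : sd 2 = false) (f : ℕ) :
    ∀ (Q r An Ad : ℕ) (O1 : OL) (Bn Bd : ℕ) (O2 : OL) (xv : ℚ) (mv : ℕ) (yv : ℚ) (nv : ℕ)
      (U : List ℕ), Side a An Ad 1 O1 xv mv → Side a Bn Bd 1 O2 yv nv →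
      U.Pairwise (· < ·) → (∀ q ∈ U, q.Prime ∧ Q ≤ q ∧ 1 ≤ a q) → U.length ≤ r →
      chkR f Q r An Ad O1 Bn Bd O2 = true →
      xv * up a sd false U + yv * up a sd true U = 1 →
      Good (mv * nu a sd false U) (nv * nu a sd true U) := by
  induction f with
  | zero =>
    intro Q r An Ad O1 Bn Bd O2 xv mv yv nv U _ _ _ _ _ hc
    exact absurd hc Bool.false_ne_true
  | succ f ih =>
    intro Q r An Ad O1 Bn Bd O2 xv mv yv nv U h1 h2 hs hU hl hc he
    have hc' : (bif Nat.ble r 1 then chk1 Q 200 An Ad 1 O1 Bn Bd 1 O2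
      else bif Nat.blt (Q * (Ad * Bd) + r * mx (An * Bd) (Bn * Ad)) (Q * (An * Bd + Bn * Ad))
        then true
      else
        (comp Q ||
          (chkR f (Q + 1) (r - 1) (An * (Q - 1)) (Ad * Q) (ins Q (Q * Q) O1) Bn Bd O2
            && (Nat.beq Q 2 || chkR f (Q + 1) (r - 1) An Ad O1 (Bn * (Q - 1))
              (Bd * Q) (ins Q (Q * Q) O2))))
        && chkR f (Q + 1) r An Ad O1 Bn Bd O2) = true := hc
    rcases cond_true hc' with ⟨h3, h4⟩ | ⟨-, hc2⟩
    · have h5 : r ≤ 1 := Nat.le_of_ble_eq_true h3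
      obtain ⟨g1, g2⟩ := snd_chk1 a Q 200 _ _ _ _ _ _ _ _ _ _ _ _ h1 h2 h4
      match U, hU, hl, he with
      | [], _, _, he =>
        rw [up_nil, up_nil, mul_one, mul_one] at he
        rw [nu_nil, nu_nil, mul_one, mul_one]
        exact g1 he
      | [q], hU, _, he =>
        obtain ⟨q1, q2, q3⟩ := hU q List.mem_cons_self
        obtain ⟨g3, g4⟩ := g2 q q1 q2 q3
        rw [up_cons, up_cons, up_nil, up_nil] at he
        rw [nu_cons, nu_cons, nu_nil, nu_nil]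
        cases hq : sd q
        · rw [hq] at he
          simp only [if_true, Bool.false_eq_true, if_false, mul_one] at he ⊢
          exact g3 he
        · rw [hq] at he
          simp only [if_true, Bool.true_eq_false, if_false, mul_one] at he ⊢
          exact g4 he
      | _ :: _ :: _, _, hl, _ =>
        simp only [List.length_cons] at hl
        omega
    rcases cond_true hc2 with ⟨h3, -⟩ | ⟨-, hc3⟩
    · exfalso
      have h4 : Q * (Ad * Bd) + r * mx (An * Bd) (Bn * Ad) < Q * (An * Bd + Bn * Ad) :=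
        Nat.blt_eq.mp h3
      rw [mx_eq] at h4
      obtain ⟨pz, qx, qy⟩ := lo_bounds h1 h2
      have hU1 : ∀ q ∈ U, 2 ≤ q ∧ 1 ≤ a q := fun x hx => ⟨(hU x hx).1.two_le, (hU x hx).2.2⟩
      obtain ⟨f0, -⟩ := up_range (sd := sd) (s := false) hU1
      obtain ⟨t0, -⟩ := up_range (sd := sd) (s := true) hU1
      have h5 := up_lower (a := a) (sd := sd) (Q := Q) (x := ((An * Bd : ℕ) : ℚ))
        (y := ((Bn * Ad : ℕ) : ℚ)) (M := ((max (An * Bd) (Bn * Ad) : ℕ) : ℚ))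
        (Nat.cast_nonneg _) (Nat.cast_nonneg _) (by exact_mod_cast le_max_left _ _)
        (by exact_mod_cast le_max_right _ _) (U := U)
        fun x hx => ⟨(hU x hx).1.two_le, (hU x hx).2.1, (hU x hx).2.2⟩
      have h6 : (Q : ℚ) * ((Ad * Bd : ℕ) : ℚ) + r * ((max (An * Bd) (Bn * Ad) : ℕ) : ℚ) <
          Q * (((An * Bd : ℕ) : ℚ) + ((Bn * Ad : ℕ) : ℚ)) := by exact_mod_cast h4
      have h7 : ((An * Bd : ℕ) : ℚ) * up a sd false U ≤
          xv * ((Ad * Bd : ℕ) : ℚ) * up a sd false U := mul_le_mul_of_nonneg_right qx f0.le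
      have h8 : ((Bn * Ad : ℕ) : ℚ) * up a sd true U ≤
          yv * ((Ad * Bd : ℕ) : ℚ) * up a sd true U := mul_le_mul_of_nonneg_right qy t0.le
      have h9 : xv * ((Ad * Bd : ℕ) : ℚ) * up a sd false U +
          yv * ((Ad * Bd : ℕ) : ℚ) * up a sd true U = ((Ad * Bd : ℕ) : ℚ) := by
        have : ((Ad * Bd : ℕ) : ℚ) =
            (xv * up a sd false U + yv * up a sd true U) * ((Ad * Bd : ℕ) : ℚ) := by
          rw [he, one_mul]
        linarith
      have h10 : (Q : ℚ) * (((An * Bd : ℕ) : ℚ) * up a sd false U +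
          ((Bn * Ad : ℕ) : ℚ) * up a sd true U) ≤ Q * ((Ad * Bd : ℕ) : ℚ) :=
        mul_le_mul_of_nonneg_left (by linarith) (Nat.cast_nonneg Q)
      have h11 : (U.length : ℚ) * ((max (An * Bd) (Bn * Ad) : ℕ) : ℚ) ≤
          r * ((max (An * Bd) (Bn * Ad) : ℕ) : ℚ) :=
        mul_le_mul_of_nonneg_right (by exact_mod_cast hl) (Nat.cast_nonneg _)
      linarith
    rw [Bool.and_eq_true] at hc3
    obtain ⟨c1, c2⟩ := hc3
    by_cases hQ : ∀ q ∈ U, Q + 1 ≤ q
    · exact ih _ _ _ _ _ _ _ _ _ _ _ _ U h1 h2 hs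
        (fun q hq => ⟨(hU q hq).1, hQ q hq, (hU q hq).2.2⟩) hl c2 he
    · cases U with
      | nil => exact absurd (fun q hq => absurd hq List.not_mem_nil) hQ
      | cons q U =>
        obtain ⟨q1, q2, q3⟩ := hU q List.mem_cons_self
        obtain ⟨s1, s2⟩ := List.pairwise_cons.mp hs
        have hqQ : q = Q := by
          by_contra h3
          apply hQ
          intro x hx
          rcases List.mem_cons.mp hx with rfl | hx
          · omega
          · have := s1 x hx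
            omega
        subst hqQ
        have hU' : ∀ x ∈ U, x.Prime ∧ q + 1 ≤ x ∧ 1 ≤ a x := fun x hx =>
          ⟨(hU x (List.mem_cons_of_mem _ hx)).1, s1 x hx, (hU x (List.mem_cons_of_mem _ hx)).2.2⟩
        have hl' : U.length ≤ r - 1 := by
          rw [List.length_cons] at hl
          omega
        rw [Bool.or_eq_true, Bool.and_eq_true, Bool.or_eq_true] at c1
        rcases c1 with c1 | ⟨c3, c4⟩
        · exact absurd q1 (comp_sound c1)
        rw [up_cons, up_cons] at he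
        rw [nu_cons, nu_cons]
        cases hq : sd q
        · rw [hq] at he
          simp only [if_true, Bool.false_eq_true, if_false, one_mul] at he ⊢
          rw [← mul_assoc] at he ⊢
          exact ih _ _ _ _ _ _ _ _ _ _ _ _ U (h1.add q1.two_le q3) h2 s2 hU' hl' c3 he
        · rw [hq] at he
          simp only [if_true, Bool.true_eq_false, if_false, one_mul] at he ⊢
          rw [← mul_assoc] at he ⊢
          rcases c4 with c4 | c4
          · rw [Nat.eq_of_beq_eq_true c4, hsd] at hq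
            exact absurd hq Bool.false_ne_true
          · exact ih _ _ _ _ _ _ _ _ _ _ _ _ U h1 (h2.add q1.two_le q3) s2 hU' hl' c4 he

theorem ratio_eq_prod {m : ℕ} (hm : m ≠ 0) :
    (m : ℚ) / (sigma 1 m : ℕ) = ∏ p ∈ m.primeFactors, ell p (m.factorization p) := by
  have h1 : sigma 1 m = ∏ p ∈ m.primeFactors,
      ∑ i ∈ Finset.range (m.factorization p + 1), p ^ i := by
    rw [isMultiplicative_sigma.multiplicative_factorization _ hm, Finsupp.prod,
      Nat.support_factorization]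
    exact Finset.prod_congr rfl fun p hp =>
      sigma_one_apply_prime_pow (Nat.prime_of_mem_primeFactors hp)
  have h2 : m = ∏ p ∈ m.primeFactors, p ^ m.factorization p := by
    conv_lhs => rw [← Nat.prod_factorization_pow_eq_self hm]
    rw [Finsupp.prod, Nat.support_factorization]
  unfold ell
  rw [Finset.prod_div_distrib, ← Nat.cast_prod, ← Nat.cast_prod, ← h1, ← h2]

theorem prod_side {β : Type} [CommMonoid β] (F : ℕ → ℕ → β) {m n : ℕ} (hc : Nat.Coprime m n) :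
    (∏ q ∈ (m * n).primeFactors,
      if decide (q ∣ n) = false then F q ((m * n).factorization q) else 1) =
        ∏ p ∈ m.primeFactors, F p (m.factorization p) ∧
    (∏ q ∈ (m * n).primeFactors,
      if decide (q ∣ n) = true then F q ((m * n).factorization q) else 1) =
        ∏ p ∈ n.primeFactors, F p (n.factorization p) := by
  have hA : ∀ q ∈ m.primeFactors, ¬ q ∣ n := fun q hq h =>
    (Nat.prime_of_mem_primeFactors hq).one_lt.ne'
      (Nat.eq_one_of_dvd_coprimes hc (Nat.dvd_of_mem_primeFactors hq) h)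
  have hB : ∀ q ∈ n.primeFactors, ¬ q ∣ m := fun q hq h =>
    (Nat.prime_of_mem_primeFactors hq).one_lt.ne'
      (Nat.eq_one_of_dvd_coprimes hc h (Nat.dvd_of_mem_primeFactors hq))
  rw [hc.primeFactors_mul, Finset.prod_union hc.disjoint_primeFactors,
    Finset.prod_union hc.disjoint_primeFactors]
  constructor
  · rw [Finset.prod_eq_one (s := n.primeFactors), mul_one]
    · refine Finset.prod_congr rfl fun q hq => ?_
      rw [if_pos (by simpa using hA q hq), Nat.factorization_mul_apply_of_coprime hc,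
        Nat.factorization_eq_zero_of_not_dvd (hA q hq), add_zero]
    · intro q hq
      rw [if_neg (by simpa using Nat.dvd_of_mem_primeFactors hq)]
  · rw [Finset.prod_eq_one (s := m.primeFactors), one_mul]
    · refine Finset.prod_congr rfl fun q hq => ?_
      rw [if_pos (by simpa using Nat.dvd_of_mem_primeFactors hq),
        Nat.factorization_mul_apply_of_coprime hc,
        Nat.factorization_eq_zero_of_not_dvd (hB q hq), zero_add]
    · intro q hq
      rw [if_neg (by simpa using hA q hq)]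

theorem good_of_odd {m n : ℕ} (hm : m ≠ 0) (hn : n ≠ 0) (hc : Nat.Coprime m n) (h2 : ¬ 2 ∣ n)
    (hw : (m * n).primeFactors.card ≤ 5)
    (he : (m : ℚ) / (sigma 1 m : ℕ) + (n : ℚ) / (sigma 1 n : ℕ) = 1) : Good m n := by
  have s0 : Side (fun q => (m * n).factorization q) 1 1 1 [] 1 1 :=
    ⟨Nat.one_pos, Nat.one_pos, fun x hx => absurd hx List.not_mem_nil, by simp [gp_nil], rfl⟩
  have hnd : ((m * n).primeFactors.sort (· ≤ ·)).Nodup := Finset.sort_nodup _ _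
  have hup : ∀ s, up (fun q => (m * n).factorization q) (fun q => decide (q ∣ n)) s
      ((m * n).primeFactors.sort (· ≤ ·)) = ∏ q ∈ (m * n).primeFactors,
        if decide (q ∣ n) = s then ell q ((m * n).factorization q) else 1 := fun s => by
    unfold up
    rw [← List.prod_toFinset _ hnd, Finset.sort_toFinset]
  have hnu : ∀ s, nu (fun q => (m * n).factorization q) (fun q => decide (q ∣ n)) s
      ((m * n).primeFactors.sort (· ≤ ·)) = ∏ q ∈ (m * n).primeFactors,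
        if decide (q ∣ n) = s then q ^ ((m * n).factorization q) else 1 := fun s => by
    unfold nu
    rw [← List.prod_toFinset _ hnd, Finset.sort_toFinset]
  have h := snd_chkR (fun q => (m * n).factorization q) (fun q => decide (q ∣ n))
    (by simpa using h2) 300 2 5 1 1 [] 1 1 [] 1 1 1 1 ((m * n).primeFactors.sort (· ≤ ·)) s0 s0
    (Finset.sortedLT_sort _).pairwise
    (fun q hq => by
      have hq' := (Finset.mem_sort _).mp hq
      have hp := Nat.prime_of_mem_primeFactors hq'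
      exact ⟨hp, hp.two_le, hp.factorization_pos_of_dvd (mul_ne_zero hm hn)
        (Nat.dvd_of_mem_primeFactors hq')⟩)
    (by rw [Finset.length_sort]; exact hw) chk_all
    (by
      rw [hup, hup, (prod_side ell hc).1, (prod_side ell hc).2, ← ratio_eq_prod hm,
        ← ratio_eq_prod hn, one_mul, one_mul]
      exact he)
  have e : ∀ k : ℕ, k ≠ 0 → ∏ p ∈ k.primeFactors, p ^ k.factorization p = k := fun k hk => by
    conv_rhs => rw [← Nat.prod_factorization_pow_eq_self hk]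
    rw [Finsupp.prod, Nat.support_factorization]
  rw [hnu, hnu, (prod_side (fun q c => q ^ c) hc).1, (prod_side (fun q c => q ^ c) hc).2,
    e m hm, e n hn, one_mul, one_mul] at h
  exact h

end Pool.Agent.MP_2876a2_nt

end

section

/-! The listed pairs are coprime harmonious pairs with five prime factors. -/

namespace Pool.Agent.MP_2876a2_nt

open ArithmeticFunction

theorem sigma_mul {x y : ℕ} (h : Nat.Coprime x y) : sigma 1 (x * y) = sigma 1 x * sigma 1 y :=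
  isMultiplicative_sigma.map_mul_of_coprime h

theorem sigma_pp {p : ℕ} (hp : p.Prime) (k : ℕ) :
    sigma 1 (p ^ k) = ∑ i ∈ Finset.range (k + 1), p ^ i := sigma_one_apply_prime_pow hp

theorem sigma_64 : sigma 1 64 = 127 := by
  have := sigma_pp Nat.prime_two 6
  simpa [Finset.sum_range_succ] using this

theorem sigma_135 : sigma 1 135 = 240 := by
  have h1 := sigma_pp Nat.prime_three 3
  have h2 := sigma_pp Nat.prime_five 1
  have h3 : (135 : ℕ) = 3 ^ 3 * 5 ^ 1 := by norm_num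
  rw [h3, sigma_mul (by norm_num), h1, h2]
  simp [Finset.sum_range_succ]

theorem sigma_big : sigma 1 173369889 = 121 * 57 * 133 * 381 := by
  have h1 := sigma_pp Nat.prime_three 4
  have h2 := sigma_pp (by norm_num : Nat.Prime 7) 2
  have h4 := sigma_pp (by norm_num : Nat.Prime 11) 2
  have h5 := sigma_pp (by norm_num : Nat.Prime 19) 2
  have h3 : (173369889 : ℕ) = 3 ^ 4 * 7 ^ 2 * 11 ^ 2 * 19 ^ 2 := by norm_num
  rw [h3, sigma_mul (by norm_num), sigma_mul (by norm_num), sigma_mul (by norm_num), h1, h2, h4, h5]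
  simp [Finset.sum_range_succ]

theorem card_le_five {N p1 p2 p3 p4 p5 e1 e2 e3 e4 e5 : ℕ} (h1 : p1.Prime) (h2 : p2.Prime)
    (h3 : p3.Prime) (h4 : p4.Prime) (h5 : p5.Prime)
    (h : N = p1 ^ e1 * p2 ^ e2 * p3 ^ e3 * p4 ^ e4 * p5 ^ e5) : N.primeFactors.card ≤ 5 := by
  refine le_trans (Finset.card_le_card (t := {p1, p2, p3, p4, p5}) fun x hx => ?_)
    Finset.card_le_five
  have hx1 := Nat.prime_of_mem_primeFactors hx
  have hx2 := Nat.dvd_of_mem_primeFactors hx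
  rw [h] at hx2
  simp only [Nat.Prime.dvd_mul hx1] at hx2
  simp only [Finset.mem_insert, Finset.mem_singleton]
  rcases hx2 with (((h6 | h6) | h6) | h6) | h6
  · exact Or.inl ((Nat.prime_dvd_prime_iff_eq hx1 h1).mp (hx1.dvd_of_dvd_pow h6))
  · exact Or.inr (Or.inl ((Nat.prime_dvd_prime_iff_eq hx1 h2).mp (hx1.dvd_of_dvd_pow h6)))
  · exact Or.inr (Or.inr (Or.inl ((Nat.prime_dvd_prime_iff_eq hx1 h3).mp (hx1.dvd_of_dvd_pow h6))))
  · exact Or.inr (Or.inr (Or.inr (Or.inl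
      ((Nat.prime_dvd_prime_iff_eq hx1 h4).mp (hx1.dvd_of_dvd_pow h6)))))
  · exact Or.inr (Or.inr (Or.inr (Or.inr
      ((Nat.prime_dvd_prime_iff_eq hx1 h5).mp (hx1.dvd_of_dvd_pow h6)))))

theorem sporadic : Nat.Coprime 64 173369889 ∧
    ((64 : ℕ) : ℚ) / (sigma 1 64 : ℕ) + ((173369889 : ℕ) : ℚ) / (sigma 1 173369889 : ℕ) = 1 ∧
    (64 * 173369889).primeFactors.card ≤ 5 := by
  refine ⟨by norm_num, ?_, card_le_five (e1 := 6) (e2 := 4) (e3 := 2) (e4 := 2) (e5 := 2)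
    Nat.prime_two Nat.prime_three (by norm_num : Nat.Prime 7) (by norm_num : Nat.Prime 11)
    (by norm_num : Nat.Prime 19) (by norm_num)⟩
  rw [sigma_64, sigma_big]
  norm_num

theorem family {p : ℕ} (hp : 5 ≤ p) (hq : (2 ^ p - 1).Prime) :
    Nat.Coprime 135 (7 * 2 ^ (p - 1) * (2 ^ p - 1)) ∧
    ((135 : ℕ) : ℚ) / (sigma 1 135 : ℕ) + ((7 * 2 ^ (p - 1) * (2 ^ p - 1) : ℕ) : ℚ) /
      (sigma 1 (7 * 2 ^ (p - 1) * (2 ^ p - 1)) : ℕ) = 1 ∧
    (135 * (7 * 2 ^ (p - 1) * (2 ^ p - 1))).primeFactors.card ≤ 5 := by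
  obtain ⟨k, rfl⟩ : ∃ k, p = k + 1 := ⟨p - 1, by omega⟩
  rw [Nat.add_sub_cancel]
  have h32 : 2 ^ 5 ≤ 2 ^ (k + 1) := Nat.pow_le_pow_right (by norm_num) hp
  have hg : ∑ i ∈ Finset.range (k + 1), 2 ^ i = 2 ^ (k + 1) - 1 := by
    rw [Nat.geomSum_eq (le_refl 2)]
    simp
  generalize hqe : 2 ^ (k + 1) - 1 = q at hq hg
  have hq1 : q + 1 = 2 * 2 ^ k := by
    rw [pow_succ] at hqe h32
    omega
  have hq31 : 31 ≤ q := by omega
  have cop : ∀ r : ℕ, r.Prime → r ≤ 7 → Nat.Coprime r q := fun r hr h7 =>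
    (Nat.coprime_primes hr hq).mpr (by omega)
  have p7 : Nat.Prime 7 := by norm_num
  refine ⟨?_, ?_, card_le_five (e1 := 3) (e2 := 1) (e3 := 1) (e4 := k) (e5 := 1)
    Nat.prime_three Nat.prime_five p7 Nat.prime_two hq (by ring)⟩
  · have h3 : (135 : ℕ) = 3 ^ 3 * 5 := by norm_num
    refine Nat.Coprime.mul_right (Nat.Coprime.mul_right (by norm_num)
      (Nat.Coprime.pow_right _ (by norm_num))) ?_
    rw [h3]
    exact Nat.Coprime.mul_left (Nat.Coprime.pow_left _ (cop 3 Nat.prime_three (by norm_num)))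
      (cop 5 Nat.prime_five (by norm_num))
  · have s7 : sigma 1 7 = 8 := by
      have := sigma_pp p7 1
      simpa [Finset.sum_range_succ] using this
    have sq : sigma 1 q = 2 * 2 ^ k := by
      have := sigma_pp hq 1
      rw [pow_one] at this
      rw [this, ← hq1]
      simp [Finset.sum_range_succ, add_comm]
    rw [sigma_135, sigma_mul (Nat.Coprime.mul_left (cop 7 p7 (le_refl _))
      (Nat.Coprime.pow_left _ (cop 2 Nat.prime_two (by norm_num)))),
      sigma_mul (Nat.Coprime.pow_right _ (by norm_num)), s7, sq, sigma_pp Nat.prime_two, hg]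
    have hq0 : (q : ℚ) ≠ 0 := by exact_mod_cast hq.ne_zero
    push_cast
    field_simp
    norm_num

theorem classification (m n : ℕ) (hm : 0 < m) (hmn : m < n) :
    (Nat.Coprime m n ∧ (m : ℚ) / (sigma 1 m : ℕ) + (n : ℚ) / (sigma 1 n : ℕ) = 1 ∧
      (m * n).primeFactors.card ≤ 5) ↔
    ((m = 64 ∧ n = 173369889) ∨
      ∃ p : ℕ, 5 ≤ p ∧ (2 ^ p - 1).Prime ∧ m = 135 ∧ n = 7 * 2 ^ (p - 1) * (2 ^ p - 1)) := by
  constructor
  · rintro ⟨hc, he, hw⟩
    by_cases h2 : 2 ∣ n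
    · have h3 : ¬ 2 ∣ m := fun h => by
        have := Nat.eq_one_of_dvd_coprimes hc h h2
        omega
      rcases good_of_odd (by omega) hm.ne' hc.symm h3 (by rw [mul_comm]; exact hw)
        (by rw [add_comm]; exact he) with ⟨h4, h5⟩ | ⟨h4, p, h5, h6, h7⟩
      · omega
      · exact Or.inr ⟨p, h5, h6, h4, h7⟩
    · rcases good_of_odd hm.ne' (by omega) hc h2 hw he with h4 | ⟨h4, p, h5, h6, h7⟩
      · exact Or.inl h4
      · exfalso
        have h8 : 2 ^ 4 ≤ 2 ^ (p - 1) := Nat.pow_le_pow_right (by norm_num) (by omega)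
        have h9 := h6.two_le
        have h10 : 7 * 2 ^ 4 * 2 ≤ 7 * 2 ^ (p - 1) * (2 ^ p - 1) :=
          Nat.mul_le_mul (Nat.mul_le_mul_left _ h8) h9
        omega
  · rintro (⟨rfl, rfl⟩ | ⟨p, h1, h2, rfl, rfl⟩)
    · exact sporadic
    · exact family h1 h2

end Pool.Agent.MP_2876a2_nt

end
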